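import Mathlib

/-! Project MS (MP_6bc78b_nt), part A5: the theorem of Siegel and Walfisz.
Statements of the modules of board sw_modules; proofs in Paper.md. -/

set_option autoImplicit false

open Complex Finset DirichletCharacter

namespace Pool.Agent.Lib.MP_6bc78b_nt.SW

/-- `log (q (|t| + 3))`, at least 1 for q ≥ 1. -/
noncomputable def LL (q : ℕ) (t : ℝ) : ℝ := Real.log (q * (|t| + 3))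

/-- `χ(n) (log n)^j`. -/
noncomputable def chiLog {q : ℕ} (χ : DirichletCharacter ℂ q) (j : ℕ) (n : ℕ) : ℂ :=
  χ (n : ZMod q) * ((Real.log n ^ j : ℝ) : ℂ)

/-- `χ(n) Λ(n) (log n)^k`. -/
noncomputable def vmLog {q : ℕ} (χ : DirichletCharacter ℂ q) (k : ℕ) (n : ℕ) : ℂ :=
  χ (n : ZMod q) * ((ArithmeticFunction.vonMangoldt n * Real.log n ^ k : ℝ) : ℂ)

/-- CHB: partial sums of a character. -/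
def ChbStatement : Prop :=
  (∀ (q : ℕ), 1 ≤ q → ∀ χ : DirichletCharacter ℂ q, χ ≠ 1 → ∀ N : ℕ,
    ‖∑ n ∈ Icc 1 N, χ (n : ZMod q)‖ ≤ q) ∧
  (∀ (q : ℕ), 1 ≤ q → ∀ N : ℕ,
    ‖∑ n ∈ Icc 1 N, (1 : DirichletCharacter ℂ q) (n : ZMod q) - (q.totient : ℂ) / q * N‖ ≤ q)

/-- PSJ: partial summation for a tail of a Dirichlet series with bounded partial sums. -/
def PsjStatement : Prop := ∀ j : ℕ, ∃ C : ℝ, 0 < C ∧ ∀ (a : ℕ → ℂ) (A : ℝ), 0 ≤ A →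
  (∀ N : ℕ, ‖∑ n ∈ Icc 1 N, a n‖ ≤ A) → ∀ σ t : ℝ, 1 < σ → σ ≤ 2 → ∀ N M : ℕ, 3 ≤ N → N ≤ M →
    ‖∑ n ∈ Ioc N M, a n * ((Real.log n ^ j : ℝ) : ℂ) * (n : ℂ) ^ (-(σ + t * I : ℂ))‖ ≤
      C * A * (|t| + 3) * Real.log N ^ j / N

/-- UBN: upper bounds for `L^(j)(s,χ)`, χ not principal, to the right of 1. -/
def UbnStatement : Prop := ∀ j : ℕ, ∃ C : ℝ, 0 < C ∧ ∀ q : ℕ, 1 ≤ q →
  ∀ χ : DirichletCharacter ℂ q, χ ≠ 1 → ∀ σ t : ℝ, 1 < σ → σ ≤ 2 →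
    ‖LSeries (chiLog χ j) (σ + t * I)‖ ≤ C * LL q t ^ (j + 1)

/-- UBP: upper bound for `L(s,χ₀)` to the right of 1. -/
def UbpStatement : Prop := ∃ C : ℝ, 0 < C ∧ ∀ q : ℕ, 1 ≤ q → ∀ σ t : ℝ, 1 < σ → σ ≤ 2 →
    ‖LSeries (fun n : ℕ => (1 : DirichletCharacter ℂ q) (n : ZMod q)) (σ + t * I)‖ ≤
      C * (1 / ‖((σ : ℂ) + t * I) - 1‖ + LL q t)

/-- TLB: trivial bounds. -/
def TlbStatement : Prop :=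
  (∀ q : ℕ, 1 ≤ q → ∀ χ : DirichletCharacter ℂ q, ∀ σ t : ℝ, 1 < σ → σ ≤ 2 →
    (σ - 1) / 2 ≤ ‖LSeries (fun n : ℕ => χ (n : ZMod q)) (σ + t * I)‖) ∧
  (∀ q : ℕ, 1 ≤ q → ∀ χ : DirichletCharacter ℂ q, ∀ σ t : ℝ, 1 < σ → σ ≤ 2 →
    ‖LSeries (fun n : ℕ => χ (n : ZMod q)) (σ + t * I)‖ ≤ 2 / (σ - 1))

/-- CNT: Lipschitz continuity in σ and t, from the bound of the derivative. -/
def CntStatement : Prop := ∃ C : ℝ, 0 < C ∧ ∀ (q : ℕ) [NeZero q] (χ : DirichletCharacter ℂ q), χ ≠ 1 →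
    (∀ σ σ' t : ℝ, 1 < σ → σ ≤ σ' → σ' ≤ 2 →
      ‖LSeries (fun n : ℕ => χ (n : ZMod q)) (σ' + t * I) -
        LSeries (fun n : ℕ => χ (n : ZMod q)) (σ + t * I)‖ ≤ C * (σ' - σ) * LL q t ^ 2) ∧
    (∀ σ t : ℝ, 1 < σ → σ ≤ 2 → |t| ≤ 1 →
      ‖LSeries (fun n : ℕ => χ (n : ZMod q)) (σ + t * I) - DirichletCharacter.LFunction χ 1‖ ≤
        C * ((σ - 1) + |t|) * LL q 0 ^ 2)

/-- SIEG: Siegel's theorem. -/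
def SiegStatement : Prop := ∀ ε : ℝ, 0 < ε → ∃ c : ℝ, 0 < c ∧
  ∀ (q : ℕ) [NeZero q] (χ : DirichletCharacter ℂ q), χ ≠ 1 → χ ^ 2 = 1 →
    c * (q : ℝ) ^ (-ε) ≤ ‖DirichletCharacter.LFunction χ 1‖

/-- LBC: lower bound for complex characters. -/
def LbcStatement : Prop := ∃ c : ℝ, 0 < c ∧ ∀ q : ℕ, 1 ≤ q →
  ∀ χ : DirichletCharacter ℂ q, χ ≠ 1 → χ ^ 2 ≠ 1 → ∀ σ t : ℝ, 1 < σ → σ ≤ 2 →
    c ≤ LL q t ^ 7 * ‖LSeries (fun n : ℕ => χ (n : ZMod q)) (σ + t * I)‖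

/-- LBR: lower bound for real characters. -/
def LbrStatement : Prop := ∀ ε : ℝ, 0 < ε → ∃ c : ℝ, 0 < c ∧ ∀ q : ℕ, 1 ≤ q →
  ∀ χ : DirichletCharacter ℂ q, χ ≠ 1 → χ ^ 2 = 1 → ∀ σ t : ℝ, 1 < σ → σ ≤ 2 →
    c ≤ (q : ℝ) ^ ε * LL q t ^ 12 * ‖LSeries (fun n : ℕ => χ (n : ZMod q)) (σ + t * I)‖

/-- LEIB: Leibniz rule for `(log n)^(k+1) = ((log)^k Λ * 1) ...`, twisted by χ. -/
def LeibStatement : Prop := ∀ q : ℕ, 1 ≤ q → ∀ χ : DirichletCharacter ℂ q, ∀ k : ℕ,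
  ∀ s : ℂ, 1 < s.re →
    (∀ j : ℕ, LSeriesSummable (chiLog χ j) s ∧ LSeriesSummable (vmLog χ j) s) ∧
    LSeries (chiLog χ (k + 1)) s =
      ∑ j ∈ range (k + 1), (k.choose j : ℂ) * LSeries (vmLog χ j) s * LSeries (chiLog χ (k - j)) s

/-- DER: bounds for the derivatives of `L'/L`. -/
def DerStatement : Prop := ∀ (k : ℕ) (ε : ℝ), 0 < ε → ∃ (C : ℝ) (E : ℕ), 0 < C ∧
  ∀ q : ℕ, 1 ≤ q → ∀ χ : DirichletCharacter ℂ q, χ ≠ 1 → ∀ σ t : ℝ, 1 < σ → σ ≤ 2 →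
    ‖LSeries (vmLog χ k) (σ + t * I)‖ ≤ C * (q : ℝ) ^ ε * LL q t ^ E

/-- PER: Perron's formula with the kernel `1/(s(s+1))`, as an inequality. -/
def PerStatement : Prop := ∃ C : ℝ, 0 < C ∧ ∀ (a : ℕ → ℂ) (c K : ℝ), 1 < c → c ≤ 2 → 0 ≤ K →
  LSeriesSummable a c → (∀ t : ℝ, ‖LSeries a (c + t * I)‖ ≤ K * (1 + |t|) ^ (1 / 2 : ℝ)) →
    ∀ x : ℝ, 1 ≤ x → ‖∑ n ∈ Icc 1 ⌊x⌋₊, a n * (1 - (n : ℂ) / x)‖ ≤ C * K * x ^ c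

/-- UNS: removal of the weights `1 - n/x` and `(log n)^k`. -/
def UnsStatement : Prop := ∀ k : ℕ, 1 ≤ k → ∃ C : ℝ, 0 < C ∧ ∀ (b : ℕ → ℂ) (K X : ℝ), 1 ≤ K → 3 ≤ X →
  (∀ n : ℕ, 1 ≤ n → ‖b n‖ ≤ Real.log n) →
  (∀ x : ℝ, 1 ≤ x → x ≤ 2 * X →
    ‖∑ n ∈ Icc 1 ⌊x⌋₊, b n * ((Real.log n ^ k : ℝ) : ℂ) * (1 - (n : ℂ) / x)‖ ≤ K * x) →
  ‖∑ n ∈ Icc 1 ⌊X⌋₊, b n‖ ≤ C * Real.sqrt K * X * Real.log X ^ (-(((k : ℝ) - 1) / 2))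

/-- The theorem of Siegel and Walfisz. -/
def SwStatement : Prop := ∀ A B : ℝ, 0 < A → 0 < B → ∃ C : ℝ, 0 < C ∧ ∀ x : ℝ, 3 ≤ x →
  ∀ q : ℕ, 1 ≤ q → (q : ℝ) ≤ Real.log x ^ A → ∀ χ : DirichletCharacter ℂ q, χ ≠ 1 →
    ‖∑ n ∈ Icc 1 ⌊x⌋₊, χ (n : ZMod q) * (ArithmeticFunction.vonMangoldt n : ℂ)‖ ≤
      C * x * Real.log x ^ (-B)

end Pool.Agent.Lib.MP_6bc78b_nt.SW
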