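import Pool.Agent.Lib.MP_6bc78b_nt.SW.Iface

/-! LBR: lower bound for `|L(s,χ)|`, `χ² = 1`, `χ ≠ 1`, to the right of 1. -/

set_option autoImplicit false

open Complex Finset DirichletCharacter

namespace Pool.Agent.Lib.MP_6bc78b_nt.SW

namespace LBR

theorem LL_ge_one {q : ℕ} (hq : 1 ≤ q) (t : ℝ) : 1 ≤ LL q t := by
  have hq' : (1 : ℝ) ≤ q := by exact_mod_cast hq
  have h3 : (3 : ℝ) ≤ q * (|t| + 3) := by nlinarith [abs_nonneg t]
  rw [LL, Real.le_log_iff_exp_le (by linarith)]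
  have := Real.exp_one_lt_d9
  linarith

theorem LL_mono {q : ℕ} (hq : 1 ≤ q) {t t' : ℝ} (h : |t| ≤ |t'|) : LL q t ≤ LL q t' := by
  have hq' : (1 : ℝ) ≤ q := by exact_mod_cast hq
  unfold LL
  apply Real.log_le_log
  · have := abs_nonneg t
    positivity
  · have := abs_nonneg t
    nlinarith

theorem LL_two {q : ℕ} (hq : 1 ≤ q) (t : ℝ) : LL q (2 * t) ≤ 2 * LL q t := by
  have hq' : (1 : ℝ) ≤ q := by exact_mod_cast hq
  have h1 := LL_ge_one hq t
  have h2 : LL q (2 * t) ≤ Real.log 2 + LL q t := by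
    unfold LL
    rw [← Real.log_mul (by norm_num) (by have := abs_nonneg t; positivity)]
    apply Real.log_le_log
    · have := abs_nonneg (2 * t)
      positivity
    · rw [abs_mul, abs_two]
      nlinarith [abs_nonneg t]
  have h3 : Real.log 2 ≤ 1 := by
    have := Real.log_two_lt_d9
    linarith
  linarith

/-- The real variable part of the argument. `l = LL q t`, `d = δ`, `e = η`. -/
theorem real_part {C1 C2 κ β l d : ℝ} (hC1 : 0 < C1) (hC2 : 0 < C2) (hκ : 0 < κ)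
    (hκ' : κ ^ 4 * (24 * C2) ≤ 1) (hβ : 0 < β) (hβ1 : β ≤ 1) (hβ' : C1 * β ≤ κ / 2)
    (hl : 1 ≤ l) (hd : 0 < d) (hd1 : d ≤ 1) (L : ℝ → ℝ) (hL : ∀ x, 0 ≤ L x)
    (h341 : ∀ x, 0 < x → x ≤ 1 → x ^ 3 * d ≤ 24 * C2 * l * L x ^ 4)
    (hcnt : ∀ x y, 0 < x → x ≤ y → y ≤ 1 → L y - L x ≤ C1 * (y - x) * l ^ 2)
    (x : ℝ) (hx : 0 < x) (hx1 : x ≤ 1) :
    β ^ 3 * (κ / 2) * d ≤ l ^ 8 * L x := by
  have hl0 : 0 < l := by linarith
  set e : ℝ := β ^ 4 * d / l ^ 10 with he
  have he0 : 0 < e := by positivity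
  have he1 : e ≤ 1 := by
    rw [he, div_le_one (by positivity)]
    have h1 : β ^ 4 ≤ 1 := pow_le_one₀ hβ.le hβ1
    have h2 : 1 ≤ l ^ 10 := one_le_pow₀ hl
    nlinarith [mul_le_mul h1 hd1 hd.le zero_le_one]
  -- the bound for `y ≥ e`
  have key : ∀ y, e ≤ y → y ≤ 1 → β ^ 3 * κ * d ≤ l ^ 8 * L y := by
    intro y hy hy1
    have h1 := h341 y (he0.trans_le hy) hy1
    have h2 : e ^ 3 * d ≤ 24 * C2 * l * L y ^ 4 :=
      (mul_le_mul_of_nonneg_right (pow_le_pow_left₀ he0.le hy 3) hd.le).trans h1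
    have h3 : (β ^ 3 * κ * d) ^ 4 ≤ (l ^ 8 * L y) ^ 4 := by
      have h4 : β ^ 12 * d ^ 4 ≤ 24 * C2 * l ^ 31 * L y ^ 4 := by
        have h5 : e ^ 3 * d * l ^ 30 = β ^ 12 * d ^ 4 := by
          rw [he]
          field_simp
        have h6 : e ^ 3 * d * l ^ 30 ≤ 24 * C2 * l * L y ^ 4 * l ^ 30 :=
          mul_le_mul_of_nonneg_right h2 (by positivity)
        rw [h5] at h6
        calc β ^ 12 * d ^ 4 ≤ 24 * C2 * l * L y ^ 4 * l ^ 30 := h6
          _ = 24 * C2 * l ^ 31 * L y ^ 4 := by ring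
      calc (β ^ 3 * κ * d) ^ 4 = κ ^ 4 * (β ^ 12 * d ^ 4) := by ring
        _ ≤ κ ^ 4 * (24 * C2 * l ^ 31 * L y ^ 4) :=
            mul_le_mul_of_nonneg_left h4 (by positivity)
        _ = (κ ^ 4 * (24 * C2)) * (l ^ 31 * L y ^ 4) := by ring
        _ ≤ 1 * (l ^ 31 * L y ^ 4) := by
            apply mul_le_mul_of_nonneg_right hκ'
            have := hL y
            positivity
        _ ≤ l ^ 32 * L y ^ 4 := by
            rw [one_mul]
            apply mul_le_mul_of_nonneg_right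
            · exact pow_le_pow_right₀ hl (by norm_num)
            · exact pow_nonneg (hL y) 4
        _ = (l ^ 8 * L y) ^ 4 := by ring
    exact le_of_pow_le_pow_left₀ (by norm_num) (mul_nonneg (by positivity) (hL y)) h3
  rcases le_total e x with h | h
  · have h1 := key x h hx1
    have h2 : β ^ 3 * (κ / 2) * d ≤ β ^ 3 * κ * d := by
      have : 0 ≤ β ^ 3 * κ * d := by positivity
      linarith [show β ^ 3 * (κ / 2) * d = (β ^ 3 * κ * d) / 2 by ring]
    exact h2.trans h1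
  · have h1 := key e le_rfl he1
    have h2 := hcnt x e hx h he1
    have h3 : C1 * (e - x) * l ^ 2 ≤ C1 * e * l ^ 2 := by
      have : 0 ≤ C1 * l ^ 2 := by positivity
      nlinarith
    have h4 : l ^ 8 * (C1 * e * l ^ 2) = C1 * β * (β ^ 3 * d) := by
      rw [he]
      field_simp
    have h5 : C1 * β * (β ^ 3 * d) ≤ κ / 2 * (β ^ 3 * d) :=
      mul_le_mul_of_nonneg_right hβ' (by positivity)
    have h6 : l ^ 8 * (L e - L x) ≤ l ^ 8 * (C1 * e * l ^ 2) :=
      mul_le_mul_of_nonneg_left (h2.trans h3) (by positivity)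
    nlinarith

end LBR

/-- LBR: lower bound for real characters. -/
theorem lbr (hU : UbpStatement) (hT : TlbStatement) (hC : CntStatement) (hS : SiegStatement) :
    LbrStatement := by
  intro ε hε
  obtain ⟨C2, hC2, hU⟩ := hU
  obtain ⟨hT1, hT2⟩ := hT
  obtain ⟨C1, hC1, hC⟩ := hC
  obtain ⟨c0, hc0, hS⟩ := hS (ε / 2) (by linarith)
  -- constants
  obtain ⟨a, ha0, ha1, ha2⟩ : ∃ a : ℝ, 0 < a ∧ a ≤ 1 ∧ C1 * a ≤ c0 / 2 :=
    ⟨min 1 (c0 / (2 * C1)), by positivity, min_le_left _ _, by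
      have h := min_le_right 1 (c0 / (2 * C1))
      calc C1 * min 1 (c0 / (2 * C1)) ≤ C1 * (c0 / (2 * C1)) := by gcongr
        _ = c0 / 2 := by field_simp⟩
  obtain ⟨κ, hκ0, hκ⟩ : ∃ κ : ℝ, 0 < κ ∧ κ ^ 4 * (24 * (3 * C2)) ≤ 1 := by
    refine ⟨min 1 (1 / (72 * C2)), by positivity, ?_⟩
    set m := min (1 : ℝ) (1 / (72 * C2)) with hm
    have h0 : 0 < m := by positivity
    have h1 : m ≤ 1 := min_le_left _ _
    have h2 : m ≤ 1 / (72 * C2) := min_le_right _ _
    have h3 : m ^ 4 ≤ m := by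
      calc m ^ 4 ≤ m ^ 1 := pow_le_pow_of_le_one h0.le h1 (by norm_num)
        _ = m := pow_one m
    calc m ^ 4 * (24 * (3 * C2)) ≤ (1 / (72 * C2)) * (24 * (3 * C2)) := by
          apply mul_le_mul_of_nonneg_right (h3.trans h2); positivity
      _ = 1 := by field_simp; norm_num
  obtain ⟨β, hβ0, hβ1, hβ2⟩ : ∃ β : ℝ, 0 < β ∧ β ≤ 1 ∧ C1 * β ≤ κ / 2 :=
    ⟨min 1 (κ / (2 * C1)), by positivity, min_le_left _ _, by
      have h := min_le_right 1 (κ / (2 * C1))
      calc C1 * min 1 (κ / (2 * C1)) ≤ C1 * (κ / (2 * C1)) := by gcongr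
        _ = κ / 2 := by field_simp⟩
  refine ⟨min (c0 / 2) (min (a / 4) (β ^ 3 * (κ / 2) * a)), by positivity, ?_⟩
  intro q hq χ hχ hχ2 σ t hσ hσ2
  haveI : NeZero q := ⟨by omega⟩
  have hq' : (1 : ℝ) ≤ q := by exact_mod_cast hq
  have hq0 : (0 : ℝ) < q := by linarith
  set D : ℝ := LL q 0 with hD
  set l : ℝ := LL q t with hl
  have hD1 : 1 ≤ D := LBR.LL_ge_one hq 0
  have hDl : D ≤ l := LBR.LL_mono hq (by simp)
  have hl1 : 1 ≤ l := hD1.trans hDl
  have hl0 : 0 < l := by linarith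
  set Q : ℝ := (q : ℝ) ^ (-(ε / 2)) with hQ
  have hQ0 : 0 < Q := Real.rpow_pos_of_pos hq0 _
  have hQ1 : Q ≤ 1 := Real.rpow_le_one_of_one_le_of_nonpos hq' (by linarith)
  have hqQ : 1 ≤ (q : ℝ) ^ ε * Q := by
    rw [hQ, ← Real.rpow_add hq0]
    apply Real.one_le_rpow hq'
    linarith
  have hqe : 0 < (q : ℝ) ^ ε := Real.rpow_pos_of_pos hq0 _
  set L : ℝ := ‖LSeries (fun n : ℕ => χ (n : ZMod q)) (σ + t * I)‖ with hL
  have hL0 : 0 ≤ L := norm_nonneg _
  set d : ℝ := a * Q / D ^ 2 with hd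
  have hd0 : 0 < d := by positivity
  have hd1 : d ≤ 1 := by
    rw [hd, div_le_one (by positivity)]
    have h2 : 1 ≤ D ^ 2 := one_le_pow₀ hD1
    nlinarith [mul_le_mul ha1 hQ1 hQ0.le zero_le_one]
  -- a lower bound `L ≥ k Q / D²` is enough
  have fin : ∀ k : ℝ, 0 ≤ k → k * Q ≤ l ^ 10 * L → k ≤ (q : ℝ) ^ ε * l ^ 12 * L := by
    intro k hk h
    have h1 : l ^ 10 * L ≤ l ^ 12 * L :=
      mul_le_mul_of_nonneg_right (pow_le_pow_right₀ hl1 (by norm_num)) hL0
    have h2 : (q : ℝ) ^ ε * (k * Q) ≤ (q : ℝ) ^ ε * (l ^ 12 * L) :=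
      mul_le_mul_of_nonneg_left (h.trans h1) hqe.le
    have h3 : k ≤ (q : ℝ) ^ ε * (k * Q) := by nlinarith
    calc k ≤ (q : ℝ) ^ ε * (k * Q) := h3
      _ ≤ (q : ℝ) ^ ε * (l ^ 12 * L) := h2
      _ = (q : ℝ) ^ ε * l ^ 12 * L := by ring
  have hl10 : 1 ≤ l ^ 10 := one_le_pow₀ hl1
  rcases le_or_gt ((σ - 1) + |t|) d with hA | hA
  · -- near 1
    refine (min_le_left _ _).trans (fin _ (by positivity) ?_)
    have ht1 : |t| ≤ 1 := by linarith
    have h1 := (hC q χ hχ).2 σ t hσ hσ2 ht1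
    have h2 := hS q χ hχ hχ2
    have h3 : C1 * ((σ - 1) + |t|) * LL q 0 ^ 2 ≤ C1 * a * Q := by
      calc C1 * ((σ - 1) + |t|) * LL q 0 ^ 2 ≤ C1 * d * D ^ 2 := by gcongr
        _ = C1 * a * Q := by rw [hd]; field_simp
    have h4 : C1 * a * Q ≤ c0 / 2 * Q := mul_le_mul_of_nonneg_right ha2 hQ0.le
    have h5 : ‖LFunction χ 1‖ ≤ L + ‖LSeries (fun n : ℕ => χ (n : ZMod q)) (σ + t * I) -
        LFunction χ 1‖ := by
      rw [← norm_neg (LSeries (fun n : ℕ => χ (n : ZMod q)) (σ + t * I) - LFunction χ 1)]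
      calc ‖LFunction χ 1‖ = ‖LSeries (fun n : ℕ => χ (n : ZMod q)) (σ + t * I) +
            -(LSeries (fun n : ℕ => χ (n : ZMod q)) (σ + t * I) - LFunction χ 1)‖ := by
            congr 1; ring
        _ ≤ _ := norm_add_le _ _
    have h6 : c0 / 2 * Q ≤ L := by
      have h7 : c0 * Q ≤ ‖LFunction χ 1‖ := h2
      linarith
    calc c0 / 2 * Q ≤ L := h6
      _ ≤ l ^ 10 * L := le_mul_of_one_le_left hL0 hl10
  · rcases le_or_gt |t| (d / 2) with hB | hB
    · -- small `t`, not small `σ - 1`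
      refine (min_le_right _ _).trans ((min_le_left _ _).trans (fin _ (by positivity) ?_))
      have h1 := hT1 q hq χ σ t hσ hσ2
      have h2 : d / 4 ≤ L := by
        have h3 : (σ - 1) / 2 ≤ L := h1
        linarith
      have h3 : a / 4 * Q = D ^ 2 * (d / 4) := by
        rw [hd]; field_simp
      rw [h3]
      calc D ^ 2 * (d / 4) ≤ l ^ 2 * L := by
            apply mul_le_mul _ h2 (by positivity) (by positivity)
            exact pow_le_pow_left₀ (by linarith) hDl 2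
        _ ≤ l ^ 10 * L := mul_le_mul_of_nonneg_right (pow_le_pow_right₀ hl1 (by norm_num)) hL0
    · -- large `t`
      refine (min_le_right _ _).trans ((min_le_right _ _).trans (fin _ (by positivity) ?_))
      have hmain := LBR.real_part (C1 := C1) (C2 := 3 * C2) (κ := κ) (β := β) (l := l) (d := d)
        hC1 (by positivity) hκ0 hκ hβ0 hβ1 hβ2 hl1 hd0 hd1
        (fun x => ‖LSeries (fun n : ℕ => χ (n : ZMod q)) ((1 + x : ℝ) + t * I)‖)
        (fun x => norm_nonneg _) ?_ ?_ (σ - 1) (by linarith) (by linarith)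
      · have h1 : (1 + (σ - 1) : ℝ) = σ := by ring
        simp only [h1] at hmain
        have h2 : β ^ 3 * (κ / 2) * a * Q = D ^ 2 * (β ^ 3 * (κ / 2) * d) := by
          rw [hd]; field_simp
        rw [h2]
        calc D ^ 2 * (β ^ 3 * (κ / 2) * d) ≤ l ^ 2 * (l ^ 8 * L) := by
              apply mul_le_mul _ hmain (by positivity) (by positivity)
              exact pow_le_pow_left₀ (by linarith) hDl 2
          _ = l ^ 10 * L := by ring
      · -- 3-4-1
        intro x hx hx1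
        have h341 := norm_LSeries_product_ge_one χ hx t
        rw [hχ2] at h341
        simp only [norm_mul, norm_pow] at h341
        have e1 : (1 + (x : ℂ)) = ((1 + x : ℝ) : ℂ) + (0 : ℝ) * I := by push_cast; ring
        have e2 : (1 + (x : ℂ) + I * t) = ((1 + x : ℝ) : ℂ) + t * I := by push_cast; ring
        have e3 : (1 + (x : ℂ) + 2 * I * t) = ((1 + x : ℝ) : ℂ) + (2 * t : ℝ) * I := by
          push_cast; ring
        have h0 := hT2 q hq 1 (1 + x) 0 (by linarith) (by linarith)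
        have h2 := hU q hq (1 + x) (2 * t) (by linarith) (by linarith)
        rw [e2, e3] at h341
        rw [← e1] at h0
        have h0' : ‖LSeries (fun n : ℕ => (1 : DirichletCharacter ℂ q) (n : ZMod q)) (1 + x)‖ ≤
            2 / x := by
          have : (1 + x - 1 : ℝ) = x := by ring
          rwa [this] at h0
        have h2' : ‖LSeries (fun n : ℕ => (1 : DirichletCharacter ℂ q) (n : ZMod q))
            (((1 + x : ℝ) : ℂ) + (2 * t : ℝ) * I)‖ ≤ 3 * C2 * l / d := by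
          refine h2.trans ?_
          have h3 : d ≤ ‖(((1 + x : ℝ) : ℂ) + (2 * t : ℝ) * I) - 1‖ := by
            have h4 := abs_im_le_norm ((((1 + x : ℝ) : ℂ) + (2 * t : ℝ) * I) - 1)
            have h5 : ((((1 + x : ℝ) : ℂ) + (2 * t : ℝ) * I) - 1).im = 2 * t := by simp
            rw [h5, abs_mul, abs_two] at h4
            linarith
          have h6 : 1 / ‖(((1 + x : ℝ) : ℂ) + (2 * t : ℝ) * I) - 1‖ ≤ l / d := by
            calc 1 / ‖(((1 + x : ℝ) : ℂ) + (2 * t : ℝ) * I) - 1‖ ≤ 1 / d :=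
                  one_div_le_one_div_of_le hd0 h3
              _ ≤ l / d := by gcongr
          have h7 : LL q (2 * t) ≤ 2 * l / d := by
            calc LL q (2 * t) ≤ 2 * l := LBR.LL_two hq t
              _ ≤ 2 * l / d := by
                rw [le_div_iff₀ hd0]
                nlinarith
          calc C2 * (1 / ‖(((1 + x : ℝ) : ℂ) + (2 * t : ℝ) * I) - 1‖ + LL q (2 * t))
              ≤ C2 * (l / d + 2 * l / d) := by gcongr
            _ = 3 * C2 * l / d := by ring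
        set P0 := ‖LSeries (fun n : ℕ => (1 : DirichletCharacter ℂ q) (n : ZMod q)) (1 + x)‖
          with hP0
        set P2 := ‖LSeries (fun n : ℕ => (1 : DirichletCharacter ℂ q) (n : ZMod q))
            (((1 + x : ℝ) : ℂ) + (2 * t : ℝ) * I)‖ with hP2
        set P1 := ‖LSeries (fun n : ℕ => χ (n : ZMod q)) (((1 + x : ℝ) : ℂ) + t * I)‖ with hP1
        have h341' : 1 ≤ P0 ^ 3 * P1 ^ 4 * P2 := h341
        have h8 : P0 ^ 3 * P1 ^ 4 * P2 ≤ (2 / x) ^ 3 * P1 ^ 4 * (3 * C2 * l / d) := by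
          have n0 : 0 ≤ P0 := norm_nonneg _
          have n1 : 0 ≤ P1 := norm_nonneg _
          have n2 : 0 ≤ P2 := norm_nonneg _
          gcongr
        have h9 : (2 / x) ^ 3 * P1 ^ 4 * (3 * C2 * l / d) * (x ^ 3 * d) =
            24 * C2 * l * P1 ^ 4 := by
          field_simp
          ring
        have h10 : x ^ 3 * d ≤ 24 * C2 * l * P1 ^ 4 := by
          rw [← h9]
          have : 0 < x ^ 3 * d := by positivity
          calc x ^ 3 * d = 1 * (x ^ 3 * d) := by ring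
            _ ≤ (2 / x) ^ 3 * P1 ^ 4 * (3 * C2 * l / d) * (x ^ 3 * d) :=
                mul_le_mul_of_nonneg_right (h341'.trans h8) this.le
        have h11 : 24 * C2 * l * P1 ^ 4 ≤ 24 * (3 * C2) * l * P1 ^ 4 := by
          have : 0 ≤ C2 * l * P1 ^ 4 := by positivity
          nlinarith
        exact h10.trans h11
      · -- continuity
        intro x y hx hxy hy
        have h1 := (hC q χ hχ).1 (1 + x) (1 + y) t (by linarith) (by linarith) (by linarith)
        have h2 := norm_sub_norm_le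
          (LSeries (fun n : ℕ => χ (n : ZMod q)) (((1 + y : ℝ) : ℂ) + t * I))
          (LSeries (fun n : ℕ => χ (n : ZMod q)) (((1 + x : ℝ) : ℂ) + t * I))
        have h3 : (1 + y - (1 + x) : ℝ) = y - x := by ring
        rw [h3] at h1
        exact h2.trans h1

end Pool.Agent.Lib.MP_6bc78b_nt.SW
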