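import Pool.Agent.Lib.MP_6bc78b_nt.SW.Growth

open Finset Filter Complex MeasureTheory Set
open scoped Topology

namespace Pool.Agent.Lib.MP_6bc78b_nt.SW.H6

theorem sum_Icc_zero_eq {q : ℕ} [NeZero q] {χ : DirichletCharacter ℂ q} (hχ : χ ≠ 1)
    (g : ℕ → ℂ) (n : ℕ) :
    ∑ k ∈ Icc 0 n, g k * χ (k : ZMod q) = ∑ k ∈ Icc 1 n, g k * χ (k : ZMod q) := by
  have h1 := one_lt_of_ne_one hχ
  have : Fact (1 < q) := ⟨h1⟩
  rw [← Finset.insert_Icc_add_one_left_eq_Icc n.zero_le, Finset.sum_insert (by simp)]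
  have h0 : χ ((0 : ℕ) : ZMod q) = 0 := by
    rw [Nat.cast_zero]
    exact χ.map_zero
  rw [h0, mul_zero, zero_add, zero_add]

/-- approximate functional sum -/
theorem norm_LFunction_sub_sum_le {q : ℕ} [NeZero q] {χ : DirichletCharacter ℂ q} (hχ : χ ≠ 1)
    {s : ℂ} (hs : 0 < s.re) {N : ℕ} (hN : 1 ≤ N) :
    ‖χ.LFunction s - ∑ n ∈ Icc 1 N, (n : ℂ) ^ (-s) * χ (n : ZMod q)‖
      ≤ q * (N : ℝ) ^ (-s.re) * (1 + ‖s‖ / s.re) := by
  have h1 := one_lt_of_ne_one hχ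
  have hfact : Fact (1 < q) := ⟨h1⟩
  have hs0 : s ≠ 0 := by rintro rfl; simp at hs
  have hN0 : (0 : ℝ) < N := by exact_mod_cast hN
  have hχ0 : χ ((0 : ℕ) : ZMod q) = 0 := by
    rw [Nat.cast_zero]
    exact χ.map_zero
  have habel := sum_mul_eq_sub_integral_mul₀' (f := fun t : ℝ => (t : ℂ) ^ (-s))
    (c := fun k : ℕ => χ (k : ZMod q)) hχ0 N
    (fun t ht => DifferentiableAt.ofReal_cpow_const differentiableAt_id
      (zero_lt_one.trans_le ht.1).ne' (neg_ne_zero.2 hs0))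
    (by
      have := (integrableOn_Ioi_deriv_ofReal_cpow (s := -s) zero_lt_one (by simpa using hs))
      rw [integrableOn_Icc_iff_integrableOn_Ioc]
      exact this.mono_set Set.Ioc_subset_Ioi_self)
  have hA : ∑ n ∈ Icc 1 N, (n : ℂ) ^ (-s) * χ (n : ZMod q)
      = (N : ℂ) ^ (-s) * Sx χ N + s * ∫ t in Set.Ioc (1 : ℝ) N, Sx χ t * (t : ℂ) ^ (-(s + 1)) := by
    rw [← sum_Icc_zero_eq hχ (fun n => (n : ℂ) ^ (-s)) N]
    have h2 : ∑ k ∈ Icc 0 N, (k : ℂ) ^ (-s) * χ (k : ZMod q)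
        = ∑ k ∈ Icc 0 N, (((k : ℝ) : ℂ)) ^ (-s) * χ (k : ZMod q) := by
      refine Finset.sum_congr rfl fun k _ => ?_
      push_cast; rfl
    have h3 : ∀ m : ℕ, ∑ k ∈ Icc 0 m, χ (k : ZMod q) = ∑ k ∈ Icc 1 m, χ (k : ZMod q) := by
      intro m
      have := sum_Icc_zero_eq hχ (fun _ => 1) m
      simpa using this
    rw [h2, habel, h3, sub_eq_add_neg]
    congr 1
    · rw [Sx, Nat.floor_natCast]
      push_cast; rfl
    · rw [← integral_neg, ← integral_const_mul]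
      refine setIntegral_congr_fun measurableSet_Ioc fun t ht => ?_
      have ht0 : (0 : ℝ) < t := zero_lt_one.trans ht.1
      rw [deriv_ofReal_cpow_const ht0.ne' (neg_ne_zero.2 hs0), h3, Sx]
      have : -s - 1 = -(s + 1) := by ring
      rw [this]
      ring
  have hsplit : ∫ t in Set.Ioi (1 : ℝ), Sx χ t * (t : ℂ) ^ (-(s + 1))
      = (∫ t in Set.Ioc (1 : ℝ) N, Sx χ t * (t : ℂ) ^ (-(s + 1)))
        + ∫ t in Set.Ioi (N : ℝ), Sx χ t * (t : ℂ) ^ (-(s + 1)) := by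
    have hN1 : (1 : ℝ) ≤ N := by exact_mod_cast hN
    rw [← setIntegral_union (Set.Ioc_disjoint_Ioi le_rfl) measurableSet_Ioi
      ((integrableOn_aux hχ hs one_pos).mono_set Set.Ioc_subset_Ioi_self)
      (integrableOn_aux hχ hs hN0), Set.Ioc_union_Ioi_eq_Ioi hN1]
  have hB : χ.LFunction s - ∑ n ∈ Icc 1 N, (n : ℂ) ^ (-s) * χ (n : ZMod q)
      = s * (∫ t in Set.Ioi (N : ℝ), Sx χ t * (t : ℂ) ^ (-(s + 1))) - (N : ℂ) ^ (-s) * Sx χ N := by
    rw [LFunction_eq_integral hχ hs, hA, hsplit]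
    ring
  rw [hB]
  refine (norm_sub_le _ _).trans ?_
  rw [norm_mul, norm_mul]
  have hn1 : ‖(N : ℂ) ^ (-s)‖ = (N : ℝ) ^ (-s.re) := by
    have : (N : ℂ) = ((N : ℝ) : ℂ) := by push_cast; rfl
    rw [this, Complex.norm_cpow_eq_rpow_re_of_pos hN0]
    simp
  rw [hn1]
  have e1 := mul_le_mul_of_nonneg_left (norm_integral_tail_le hχ hs hN0) (norm_nonneg s)
  have e2 := mul_le_mul_of_nonneg_left (norm_Sx_le hχ (N : ℝ)) (Real.rpow_nonneg hN0.le (-s.re))
  calc _ ≤ ‖s‖ * (q * ((N : ℝ) ^ (-s.re) / s.re)) + (N : ℝ) ^ (-s.re) * q := add_le_add e1 e2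
    _ = _ := by ring

/-- the logarithmic scale -/
noncomputable def LL (q : ℕ) (t : ℝ) : ℝ := Real.log (q * (|t| + 4))

theorem log_eight_gt : (2 : ℝ) < Real.log 8 := by
  have h : Real.log 8 = 3 * Real.log 2 := by
    rw [show (8 : ℝ) = 2 ^ (3 : ℕ) by norm_num, Real.log_pow]; norm_num
  rw [h]
  have := Real.log_two_gt_d9
  linarith

theorem two_lt_LL {q : ℕ} (hq : 1 < q) (t : ℝ) : 2 < LL q t := by
  have h2 : (2 : ℝ) ≤ q := by exact_mod_cast hq
  have h : (8 : ℝ) ≤ q * (|t| + 4) := by nlinarith [abs_nonneg t]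
  exact log_eight_gt.trans_le (Real.log_le_log (by norm_num) h)

theorem norm_LFunction_le_log {q : ℕ} [NeZero q] {χ : DirichletCharacter ℂ q} (hχ : χ ≠ 1)
    {s : ℂ} (hs : 1 - 1 / LL q s.im ≤ s.re) : ‖χ.LFunction s‖ ≤ 9 * LL q s.im := by
  have h1 := one_lt_of_ne_one hχ
  have hL := two_lt_LL h1 s.im
  set Λ := LL q s.im with hΛ
  set X : ℝ := q * (|s.im| + 4) with hX
  have hq2 : (2 : ℝ) ≤ q := by exact_mod_cast h1
  have hX8 : (8 : ℝ) ≤ X := by rw [hX]; nlinarith [abs_nonneg s.im]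
  have hX0 : 0 < X := by linarith
  have hexp : Real.exp Λ = X := by rw [hΛ, LL, Real.exp_log hX0]
  have hhalf : (1 : ℝ) / 2 ≤ s.re := by
    have : 1 / Λ ≤ 1 / 2 := one_div_le_one_div_of_le (by norm_num) hL.le
    linarith
  have hs0 : 0 < s.re := by linarith
  set N : ℕ := ⌊X⌋₊ with hN
  have hNX : (N : ℝ) ≤ X := Nat.floor_le hX0.le
  have hXN : X < N + 1 := Nat.lt_floor_add_one X
  have hN8 : 1 ≤ N := by
    rw [hN]; exact Nat.le_floor (by push_cast; linarith)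
  have hN0 : (0 : ℝ) < N := by exact_mod_cast hN8
  have hNq : q * (|s.im| + 3) ≤ (N : ℝ) := by
    have : X = q * (|s.im| + 3) + q := by rw [hX]; ring
    linarith
  -- the key bound for the terms
  have hterm : ∀ n : ℕ, 1 ≤ n → (n : ℝ) ≤ X → (n : ℝ) ^ (-s.re) ≤ Real.exp 1 * (1 / n) := by
    intro n hn hnX
    have hn0 : (0 : ℝ) < n := by exact_mod_cast hn
    have e1 : (n : ℝ) ^ (-s.re) = (n : ℝ) ^ (1 - s.re) * (1 / n) := by
      rw [sub_eq_add_neg, Real.rpow_add hn0, Real.rpow_one]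
      field_simp
    rw [e1]
    refine mul_le_mul_of_nonneg_right ?_ (by positivity)
    have hn1 : (1 : ℝ) ≤ n := by exact_mod_cast hn
    rcases le_total 1 s.re with h | h
    · calc (n : ℝ) ^ (1 - s.re) ≤ (n : ℝ) ^ (0 : ℝ) :=
            Real.rpow_le_rpow_of_exponent_le hn1 (by linarith)
        _ = 1 := Real.rpow_zero _
        _ ≤ Real.exp 1 := Real.one_le_exp (by norm_num)
    · calc (n : ℝ) ^ (1 - s.re) ≤ X ^ (1 - s.re) :=
            Real.rpow_le_rpow hn0.le hnX (by linarith)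
        _ = Real.exp (Λ * (1 - s.re)) := by rw [← hexp, ← Real.exp_mul]
        _ ≤ Real.exp 1 := by
          refine Real.exp_le_exp.2 ?_
          have : 1 - s.re ≤ 1 / Λ := by linarith
          calc Λ * (1 - s.re) ≤ Λ * (1 / Λ) := mul_le_mul_of_nonneg_left this (by linarith)
            _ = 1 := by field_simp
  have hsum : ‖∑ n ∈ Icc 1 N, (n : ℂ) ^ (-s) * χ (n : ZMod q)‖ ≤ Real.exp 1 * (1 + Λ) := by
    calc ‖∑ n ∈ Icc 1 N, (n : ℂ) ^ (-s) * χ (n : ZMod q)‖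
        ≤ ∑ n ∈ Icc 1 N, ‖(n : ℂ) ^ (-s) * χ (n : ZMod q)‖ := norm_sum_le _ _
      _ ≤ ∑ n ∈ Icc 1 N, Real.exp 1 * (1 / (n : ℝ)) := by
          refine Finset.sum_le_sum fun n hn => ?_
          have hn1 : 1 ≤ n := (Finset.mem_Icc.1 hn).1
          have hn0 : (0 : ℝ) < n := by exact_mod_cast hn1
          have hnX : (n : ℝ) ≤ X := by
            refine le_trans ?_ hNX
            exact_mod_cast (Finset.mem_Icc.1 hn).2
          rw [norm_mul]
          have e1 : ‖(n : ℂ) ^ (-s)‖ = (n : ℝ) ^ (-s.re) := by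
            have : (n : ℂ) = ((n : ℝ) : ℂ) := by push_cast; rfl
            rw [this, Complex.norm_cpow_eq_rpow_re_of_pos hn0]
            simp
          rw [e1]
          calc (n : ℝ) ^ (-s.re) * ‖χ (n : ZMod q)‖ ≤ (n : ℝ) ^ (-s.re) * 1 :=
                mul_le_mul_of_nonneg_left (χ.norm_le_one _) (Real.rpow_nonneg hn0.le _)
            _ ≤ _ := by rw [mul_one]; exact hterm n hn1 hnX
      _ = Real.exp 1 * ∑ n ∈ Icc 1 N, (1 / (n : ℝ)) := by rw [Finset.mul_sum]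
      _ ≤ Real.exp 1 * (1 + Λ) := by
          refine mul_le_mul_of_nonneg_left ?_ (Real.exp_pos 1).le
          have h2 := harmonic_le_one_add_log N
          rw [harmonic_eq_sum_Icc] at h2
          push_cast at h2
          have h3 : Real.log N ≤ Λ := by
            rw [hΛ, LL]; exact Real.log_le_log hN0 hNX
          have h4 : ∑ n ∈ Icc 1 N, (1 / (n : ℝ)) = ∑ n ∈ Icc 1 N, ((n : ℝ))⁻¹ := by
            refine Finset.sum_congr rfl fun n _ => by rw [one_div]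
          rw [h4]
          linarith
  have hrem : q * (N : ℝ) ^ (-s.re) * (1 + ‖s‖ / s.re) ≤ Real.exp 1 * 2 := by
    have e1 := hterm N hN8 hNX
    have e2 : ‖s‖ / s.re ≤ 1 + 2 * |s.im| := by
      rw [div_le_iff₀ hs0]
      have h3 : ‖s‖ ≤ |s.re| + |s.im| := Complex.norm_le_abs_re_add_abs_im s
      rw [abs_of_pos hs0] at h3
      nlinarith [abs_nonneg s.im]
    have e3 : (q : ℝ) * (N : ℝ) ^ (-s.re) ≤ Real.exp 1 * (q / N) := by
      calc (q : ℝ) * (N : ℝ) ^ (-s.re) ≤ q * (Real.exp 1 * (1 / N)) :=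
            mul_le_mul_of_nonneg_left e1 (by linarith)
        _ = _ := by ring
    have e4 : (q : ℝ) / N ≤ 1 / (|s.im| + 3) := by
      rw [div_le_div_iff₀ hN0 (by positivity)]
      linarith
    calc q * (N : ℝ) ^ (-s.re) * (1 + ‖s‖ / s.re)
        ≤ (Real.exp 1 * (1 / (|s.im| + 3))) * (1 + (1 + 2 * |s.im|)) := by
          refine mul_le_mul (e3.trans (mul_le_mul_of_nonneg_left e4 (Real.exp_pos 1).le))
            (by linarith) (by positivity) (by positivity)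
      _ = Real.exp 1 * ((2 + 2 * |s.im|) / (|s.im| + 3)) := by ring
      _ ≤ Real.exp 1 * 2 := by
          refine mul_le_mul_of_nonneg_left ?_ (Real.exp_pos 1).le
          rw [div_le_iff₀ (by positivity)]
          linarith
  have htri : ‖χ.LFunction s‖ ≤ ‖χ.LFunction s - ∑ n ∈ Icc 1 N, (n : ℂ) ^ (-s) * χ (n : ZMod q)‖
      + ‖∑ n ∈ Icc 1 N, (n : ℂ) ^ (-s) * χ (n : ZMod q)‖ := by
    have := norm_add_le (χ.LFunction s - ∑ n ∈ Icc 1 N, (n : ℂ) ^ (-s) * χ (n : ZMod q))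
      (∑ n ∈ Icc 1 N, (n : ℂ) ^ (-s) * χ (n : ZMod q))
    rwa [sub_add_cancel] at this
  have hmain := norm_LFunction_sub_sum_le hχ hs0 hN8
  have he : Real.exp 1 < 3 := by
    have := Real.exp_one_lt_d9; linarith
  have he0 := Real.exp_pos 1
  nlinarith [htri, hmain, hrem, hsum]

/-- derivatives to the right of the line `Re s = 1` -/
theorem norm_iteratedDeriv_LFunction_le {q : ℕ} [NeZero q] {χ : DirichletCharacter ℂ q}
    (hχ : χ ≠ 1) {s : ℂ} (hs : 1 ≤ s.re) (k : ℕ) :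
    ‖iteratedDeriv k χ.LFunction s‖ ≤ k.factorial * 9 * LL q (|s.im| + 1) ^ (k + 1) := by
  have h1 := one_lt_of_ne_one hχ
  have hL := two_lt_LL h1 (|s.im| + 1)
  set Λ := LL q (|s.im| + 1) with hΛ
  have hR : (0 : ℝ) < 1 / Λ := by positivity
  have hR1 : 1 / Λ ≤ 1 := by
    rw [div_le_one (by linarith)]; linarith
  have hq2 : (2 : ℝ) ≤ q := by exact_mod_cast h1
  have hC : ∀ z ∈ Metric.sphere s (1 / Λ), ‖χ.LFunction z‖ ≤ 9 * Λ := by
    intro z hz
    have hd : ‖z - s‖ = 1 / Λ := by rwa [mem_sphere_iff_norm] at hz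
    have him : |z.im| ≤ |s.im| + 1 := by
      have h2 : |(z - s).im| ≤ 1 / Λ := (Complex.abs_im_le_norm _).trans_eq hd
      rw [Complex.sub_im] at h2
      have h3 : |z.im| ≤ |s.im| + |z.im - s.im| := by
        calc |z.im| = |s.im + (z.im - s.im)| := by ring_nf
          _ ≤ _ := abs_add_le _ _
      linarith
    have hre : 1 - 1 / Λ ≤ z.re := by
      have h2 : |(z - s).re| ≤ 1 / Λ := (Complex.abs_re_le_norm _).trans_eq hd
      rw [Complex.sub_re] at h2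
      have := (abs_le.1 h2).1
      linarith
    have hLL : LL q z.im ≤ Λ := by
      rw [hΛ, LL, LL]
      refine Real.log_le_log (by positivity) ?_
      refine mul_le_mul_of_nonneg_left ?_ (by linarith)
      rw [abs_of_nonneg (by positivity : (0 : ℝ) ≤ |s.im| + 1)]
      linarith
    have hLz := two_lt_LL h1 z.im
    refine (norm_LFunction_le_log hχ ?_).trans (by linarith)
    have : 1 / Λ ≤ 1 / LL q z.im := one_div_le_one_div_of_le (by linarith) hLL
    linarith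
  have h3 := Complex.norm_iteratedDeriv_le_of_forall_mem_sphere_norm_le k hR
    (DirichletCharacter.differentiable_LFunction hχ).diffContOnCl hC
  refine h3.trans (le_of_eq ?_)
  have hΛ0 : Λ ≠ 0 := by positivity
  rw [one_div, inv_pow, div_inv_eq_mul]
  ring

end Pool.Agent.Lib.MP_6bc78b_nt.SW.H6
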