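import Pool.Agent.Lib.MP_6bc78b_nt.SW.Iface
import Pool.Agent.Lib.MP_6bc78b_nt.SW.LogBound

open Finset Filter Complex
open scoped Topology

namespace Pool.Agent.Lib.MP_6bc78b_nt.SW

theorem one_le_LL {q : ℕ} (hq : 1 ≤ q) (t : ℝ) : 1 ≤ LL q t := by
  have h1 : (1 : ℝ) ≤ q := by exact_mod_cast hq
  have h3 : (3 : ℝ) ≤ q * (|t| + 3) := by nlinarith [abs_nonneg t]
  rw [LL, Real.le_log_iff_exp_le (by linarith)]
  have := Real.exp_one_lt_d9
  linarith

theorem H6LL_le {q : ℕ} (hq : 1 ≤ q) (t : ℝ) : H6.LL q (|t| + 1) ≤ 2 * LL q t := by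
  have h1 : (1 : ℝ) ≤ q := by exact_mod_cast hq
  have h0 := abs_nonneg t
  have h3 : (3 : ℝ) ≤ q * (|t| + 3) := by nlinarith
  rw [H6.LL, LL, abs_of_nonneg (by positivity : (0 : ℝ) ≤ |t| + 1)]
  have e : 2 * Real.log (q * (|t| + 3)) = Real.log ((q * (|t| + 3)) ^ 2) := by
    rw [Real.log_pow]; norm_num
  rw [e]
  refine Real.log_le_log (by positivity) ?_
  nlinarith

theorem chiLog_eq {q : ℕ} (χ : DirichletCharacter ℂ q) (j : ℕ) :
    chiLog χ j = LSeries.logMul^[j] (H6.chf χ) := by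
  induction j with
  | zero => funext n; simp [chiLog]
  | succ j ih =>
    rw [Function.iterate_succ_apply', ← ih]
    funext n
    rw [LSeries.logMul, chiLog, chiLog, ← Complex.natCast_log]
    push_cast
    ring

theorem LSeries_chiLog {q : ℕ} [NeZero q] {χ : DirichletCharacter ℂ q} (j : ℕ) {s : ℂ}
    (hs : 1 < s.re) : LSeries (chiLog χ j) s = (-1) ^ j * iteratedDeriv j χ.LFunction s := by
  have h1 : LSeries.abscissaOfAbsConv (H6.chf χ) < s.re := by
    rw [χ.absicssaOfAbsConv_eq_one (NeZero.ne q)]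
    exact_mod_cast hs
  have h2 : iteratedDeriv j χ.LFunction s = iteratedDeriv j (LSeries (H6.chf χ)) s := by
    refine Filter.EventuallyEq.iteratedDeriv_eq j ?_
    filter_upwards [(isOpen_lt continuous_const continuous_re).mem_nhds hs] with z hz
    exact χ.LFunction_eq_LSeries hz
  rw [h2, LSeries_iteratedDeriv j h1, chiLog_eq, ← mul_assoc, ← mul_pow]
  norm_num

theorem ubn : UbnStatement := by
  intro j
  refine ⟨j.factorial * 9 * 2 ^ (j + 1), by positivity, ?_⟩
  intro q hq χ hχ σ t hσ _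
  have : NeZero q := ⟨by omega⟩
  have hs : 1 < ((σ : ℂ) + t * I).re := by simpa using hσ
  have him : ((σ : ℂ) + t * I).im = t := by simp
  rw [LSeries_chiLog j hs, norm_mul, norm_pow, norm_neg, norm_one, one_pow, one_mul]
  have h1 := H6.norm_iteratedDeriv_LFunction_le hχ hs.le j
  rw [him] at h1
  refine h1.trans ?_
  have h2 := H6LL_le hq t
  have h3 : 0 ≤ H6.LL q (|t| + 1) := by
    have := H6.two_lt_LL (H6.one_lt_of_ne_one hχ) (|t| + 1)
    linarith
  calc j.factorial * 9 * H6.LL q (|t| + 1) ^ (j + 1)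
      ≤ j.factorial * 9 * (2 * LL q t) ^ (j + 1) :=
        mul_le_mul_of_nonneg_left (pow_le_pow_left₀ h3 h2 _) (by positivity)
    _ = _ := by rw [mul_pow]; ring

end Pool.Agent.Lib.MP_6bc78b_nt.SW
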