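import Pool.Agent.Lib.MP_6bc78b_nt.SW.H17.Ubn

/-! # UBP: upper bound for `L(s,χ₀)` to the right of 1 -/

set_option autoImplicit false

open Complex Finset DirichletCharacter Filter Topology

namespace Pool.Agent.Lib.MP_6bc78b_nt.SW

namespace Ubp

/-- the primitive of `u^(-s)` -/
noncomputable def F (s : ℂ) (u : ℝ) : ℂ := (u : ℂ) ^ (1 - s) / (1 - s)

lemma hasDerivAt_F {s : ℂ} (hs : s ≠ 1) {u : ℝ} (hu : u ≠ 0) :
    HasDerivAt (F s) ((u : ℂ) ^ (-s)) u := by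
  have h := hasDerivAt_ofReal_cpow_const' hu (r := -s) (by
    intro h
    exact hs (neg_injective h))
  have h2 : (fun y : ℝ => (y : ℂ) ^ (-s + 1) / (-s + 1)) = F s := by
    funext y
    unfold F
    rw [show -s + 1 = 1 - s by ring]
  rwa [h2] at h

lemma norm_pow {u : ℝ} (hu : 0 < u) (s : ℂ) : ‖(u : ℂ) ^ s‖ = u ^ s.re :=
  Complex.norm_cpow_eq_rpow_re_of_pos hu s

lemma norm_F_le {s : ℂ} (hs : 1 < s.re) {u : ℝ} (hu : 1 ≤ u) : ‖F s u‖ ≤ 1 / ‖s - 1‖ := by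
  unfold F
  rw [norm_div, norm_pow (by linarith), norm_sub_rev 1 s]
  refine div_le_div_of_nonneg_right ?_ (norm_nonneg _)
  refine Real.rpow_le_one_of_one_le_of_nonpos hu ?_
  simp only [Complex.sub_re, Complex.one_re]
  linarith

lemma rpow_le_inv_sq {x v r : ℝ} (hx : 1 ≤ x) (hv : x ≤ v) (hr : r ≤ -2) :
    v ^ r ≤ (x ^ 2)⁻¹ := by
  have hv1 : 1 ≤ v := hx.trans hv
  calc v ^ r ≤ v ^ (-2 : ℝ) := Real.rpow_le_rpow_of_exponent_le hv1 hr
    _ = (v ^ 2)⁻¹ := by rw [Real.rpow_neg (by linarith), Real.rpow_two]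
    _ ≤ (x ^ 2)⁻¹ := inv_anti₀ (by positivity) (pow_le_pow_left₀ (by linarith) hv 2)

/-- `u^(-s)` and `x^(-s)` are close for `u ∈ [x, x+1]` -/
lemma close {s : ℂ} (hs : 1 < s.re) {x u : ℝ} (hx : 1 ≤ x) (hu : x ≤ u) (hu1 : u ≤ x + 1) :
    ‖(u : ℂ) ^ (-s) - (x : ℂ) ^ (-s)‖ ≤ ‖s‖ * (x ^ 2)⁻¹ := by
  have hs0 : -s ≠ 0 := by
    intro h
    rw [neg_eq_zero] at h
    rw [h] at hs
    simp only [Complex.zero_re] at hs
    linarith
  have h := Convex.norm_image_sub_le_of_norm_hasDerivWithin_le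
    (f := fun y : ℝ => (y : ℂ) ^ (-s)) (f' := fun y : ℝ => -s * (y : ℂ) ^ (-s - 1))
    (C := ‖s‖ * (x ^ 2)⁻¹) (s := Set.Icc x (x + 1)) (x := x) (y := u)
    (fun y hy => (hasDerivAt_ofReal_cpow_const (by
      have := hy.1
      intro h0
      linarith) hs0).hasDerivWithinAt)
    (fun y hy => by
      have hy0 : 0 < y := by linarith [hy.1]
      rw [norm_mul, norm_neg, norm_pow hy0]
      refine mul_le_mul_of_nonneg_left (rpow_le_inv_sq hx hy.1 ?_) (norm_nonneg _)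
      simp only [Complex.sub_re, Complex.neg_re, Complex.one_re]
      linarith)
    (convex_Icc _ _) ⟨le_rfl, by linarith⟩ ⟨hu, hu1⟩
  refine h.trans ?_
  rw [Real.norm_eq_abs, abs_of_nonneg (by linarith)]
  have h0 : 0 ≤ ‖s‖ * (x ^ 2)⁻¹ := by positivity
  nlinarith

/-- one step of the comparison with the integral -/
lemma step {s : ℂ} (hs : 1 < s.re) {x : ℝ} (hx : 1 ≤ x) :
    ‖(x : ℂ) ^ (-s) - (F s (x + 1) - F s x)‖ ≤ ‖s‖ * (x ^ 2)⁻¹ := by
  have hs1 : s ≠ 1 := by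
    rintro rfl
    simp only [Complex.one_re] at hs
    linarith
  have h := Convex.norm_image_sub_le_of_norm_hasDerivWithin_le
    (f := fun y : ℝ => F s y - (y : ℂ) * (x : ℂ) ^ (-s))
    (f' := fun y : ℝ => (y : ℂ) ^ (-s) - 1 * (x : ℂ) ^ (-s))
    (C := ‖s‖ * (x ^ 2)⁻¹) (s := Set.Icc x (x + 1)) (x := x) (y := x + 1)
    (fun y hy => by
      have hy0 : y ≠ 0 := by
        have := hy.1
        intro h0
        linarith
      exact ((hasDerivAt_F hs1 hy0).sub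
        ((Complex.ofRealCLM.hasDerivAt (x := y)).mul_const _)).hasDerivWithinAt)
    (fun y hy => by
      rw [one_mul]
      exact close hs hx hy.1 hy.2)
    (convex_Icc _ _) ⟨le_rfl, by linarith⟩ ⟨by linarith, le_rfl⟩
  have h1 : ‖x + 1 - x‖ = 1 := by norm_num
  rw [h1, mul_one] at h
  rw [norm_sub_rev]
  have e : F s (x + 1) - F s x - (x : ℂ) ^ (-s) =
      (F s (x + 1) - ((x + 1 : ℝ) : ℂ) * (x : ℂ) ^ (-s)) - (F s x - (x : ℂ) * (x : ℂ) ^ (-s)) := by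
    push_cast
    ring
  rw [e]
  exact h

lemma sum_inv_sq_le {N M : ℕ} (hN : 1 ≤ N) (hM : N ≤ M) :
    ∑ n ∈ Ioc N M, ((n : ℝ) ^ 2)⁻¹ ≤ (N : ℝ)⁻¹ - (M : ℝ)⁻¹ := by
  induction M, hM using Nat.le_induction with
  | base => simp
  | succ M hM ih =>
    rw [← Finset.insert_Ioc_right_eq_Ioc_add_one hM, Finset.sum_insert (by simp)]
    have hM0 : (0 : ℝ) < M := by exact_mod_cast (by omega : 0 < M)
    have h1 : (((M + 1 : ℕ) : ℝ) ^ 2)⁻¹ ≤ (M : ℝ)⁻¹ - ((M + 1 : ℕ) : ℝ)⁻¹ := by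
      push_cast
      rw [inv_sub_inv hM0.ne' (by positivity), inv_eq_one_div,
        div_le_div_iff₀ (by positivity) (by positivity)]
      nlinarith
    linarith

lemma tele (f : ℕ → ℂ) {N M : ℕ} (hM : N ≤ M) :
    ∑ n ∈ Ioc N M, (f (n + 1) - f n) = f (M + 1) - f (N + 1) := by
  induction M, hM using Nat.le_induction with
  | base => simp
  | succ M hM ih =>
    rw [← Finset.insert_Ioc_right_eq_Ioc_add_one hM, Finset.sum_insert (by simp), ih]
    ring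

/-- the tail of the zeta function -/
lemma tail_le {s : ℂ} (hs : 1 < s.re) {N M : ℕ} (hN : 1 ≤ N) (hM : N ≤ M) :
    ‖∑ n ∈ Ioc N M, (n : ℂ) ^ (-s)‖ ≤ 2 / ‖s - 1‖ + ‖s‖ / N := by
  have h1 : ∑ n ∈ Ioc N M, (n : ℂ) ^ (-s) =
      ∑ n ∈ Ioc N M, ((n : ℂ) ^ (-s) - (F s ((n + 1 : ℕ) : ℝ) - F s (n : ℝ))) +
        (F s ((M + 1 : ℕ) : ℝ) - F s ((N + 1 : ℕ) : ℝ)) := by
    rw [← tele (fun n => F s (n : ℝ)) hM, ← Finset.sum_add_distrib]
    refine Finset.sum_congr rfl fun n _ => ?_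
    ring
  have h2 : ‖∑ n ∈ Ioc N M, ((n : ℂ) ^ (-s) - (F s ((n + 1 : ℕ) : ℝ) - F s (n : ℝ)))‖ ≤
      ‖s‖ / N := by
    refine (norm_sum_le _ _).trans ?_
    calc ∑ n ∈ Ioc N M, ‖(n : ℂ) ^ (-s) - (F s ((n + 1 : ℕ) : ℝ) - F s (n : ℝ))‖
        ≤ ∑ n ∈ Ioc N M, ‖s‖ * ((n : ℝ) ^ 2)⁻¹ := by
          refine Finset.sum_le_sum fun n hn => ?_
          rw [Finset.mem_Ioc] at hn
          have hn1 : (1 : ℝ) ≤ n := by exact_mod_cast (by omega : 1 ≤ n)
          have h := step hs hn1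
          push_cast
          rw [Complex.ofReal_natCast] at h
          exact h
      _ = ‖s‖ * ∑ n ∈ Ioc N M, ((n : ℝ) ^ 2)⁻¹ := by rw [Finset.mul_sum]
      _ ≤ ‖s‖ * (N : ℝ)⁻¹ := by
          refine mul_le_mul_of_nonneg_left ?_ (norm_nonneg _)
          have h := sum_inv_sq_le hN hM
          have h' : (0 : ℝ) ≤ (M : ℝ)⁻¹ := by positivity
          linarith
      _ = ‖s‖ / N := by rw [div_eq_mul_inv]
  have h3 : ‖F s ((M + 1 : ℕ) : ℝ) - F s ((N + 1 : ℕ) : ℝ)‖ ≤ 2 / ‖s - 1‖ := by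
    refine (norm_sub_le _ _).trans ?_
    have ha := norm_F_le hs (u := ((M + 1 : ℕ) : ℝ)) (by
      push_cast
      linarith [(Nat.cast_nonneg M : (0 : ℝ) ≤ M)])
    have hb := norm_F_le hs (u := ((N + 1 : ℕ) : ℝ)) (by
      push_cast
      linarith [(Nat.cast_nonneg N : (0 : ℝ) ≤ N)])
    calc _ ≤ 1 / ‖s - 1‖ + 1 / ‖s - 1‖ := add_le_add ha hb
      _ = 2 / ‖s - 1‖ := by ring
  rw [h1]
  refine (norm_add_le _ _).trans ?_
  linarith

end Ubp

open H17.Ubn Ubp in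
theorem ubp (h1 : ChbStatement) (h2 : PsjStatement) : UbpStatement := by
  obtain ⟨C, hC, hps⟩ := h2 0
  refine ⟨5 + C, by positivity, fun q hq σ t hσ hσ2 => ?_⟩
  have hLL := one_le_LL hq t
  have hN3 := three_le_NN hq t
  have hlog := log_NN_le hq t
  have hx := x_le_NN q t
  have hN0 : (0 : ℝ) < NN q t := by exact_mod_cast (by omega : 0 < NN q t)
  have hq1 : (1 : ℝ) ≤ q := by exact_mod_cast hq
  set χ : DirichletCharacter ℂ q := 1 with hχ
  set s : ℂ := σ + t * I with hs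
  have hsre : 1 < s.re := by
    rw [hs]
    simpa using hσ
  have hsum : LSeriesSummable (fun n : ℕ => χ (n : ZMod q)) s := by
    have h := summable_log (a := fun n : ℕ => χ (n : ZMod q)) (fun n => χ.norm_le_one _) 0 hsre
    simpa using h
  -- the constant
  set c : ℂ := (q.totient : ℂ) / q with hc
  have hcn : ‖c‖ ≤ 1 := by
    have hφ : (q.totient : ℝ) / q ≤ 1 := by
      rw [div_le_one (by linarith)]
      exact_mod_cast Nat.totient_le q
    rw [hc, norm_div, Complex.norm_natCast, Complex.norm_natCast]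
    exact hφ
  -- the norm of s
  have hsn : ‖s‖ ≤ |t| + 3 := by
    rw [hs]
    refine (norm_add_le _ _).trans ?_
    rw [norm_mul, Complex.norm_real, Complex.norm_real, Complex.norm_I, mul_one,
      Real.norm_eq_abs, Real.norm_eq_abs, abs_of_pos (by linarith)]
    linarith
  refine bound_of_partial hsum (N := NN q t) fun M hM => ?_
  rw [split_sum _ hM]
  have hhead : ‖∑ n ∈ Icc 1 (NN q t), χ (n : ZMod q) * (n : ℂ) ^ (-s)‖ ≤
      1 + Real.log (NN q t) := by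
    have h := head_le (a := fun n : ℕ => χ (n : ZMod q)) (fun n => χ.norm_le_one _) 0 hσ t
      (NN q t)
    simp only [pow_zero, Complex.ofReal_one, mul_one, one_mul] at h
    exact h
  have htail : ∑ n ∈ Ioc (NN q t) M, χ (n : ZMod q) * (n : ℂ) ^ (-s) =
      ∑ n ∈ Ioc (NN q t) M, (χ (n : ZMod q) - c) * (n : ℂ) ^ (-s) +
        c * ∑ n ∈ Ioc (NN q t) M, (n : ℂ) ^ (-s) := by
    rw [Finset.mul_sum, ← Finset.sum_add_distrib]
    refine Finset.sum_congr rfl fun n _ => ?_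
    ring
  have ht1 : ‖∑ n ∈ Ioc (NN q t) M, (χ (n : ZMod q) - c) * (n : ℂ) ^ (-s)‖ ≤ C := by
    have h3 := hps (fun n => χ (n : ZMod q) - c) q (by positivity) (fun N => by
      rw [Finset.sum_sub_distrib, Finset.sum_const, Nat.card_Icc, Nat.add_sub_cancel,
        nsmul_eq_mul, mul_comm (N : ℂ) c]
      exact h1.2 q hq N) σ t hσ hσ2 (NN q t) M hN3 hM
    simp only [pow_zero, Complex.ofReal_one, mul_one] at h3
    refine h3.trans ?_
    rw [div_le_iff₀ hN0]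
    calc C * q * (|t| + 3) = C * (q * (|t| + 3)) := by ring
      _ ≤ C * NN q t := mul_le_mul_of_nonneg_left hx hC.le
  have ht2 : ‖c * ∑ n ∈ Ioc (NN q t) M, (n : ℂ) ^ (-s)‖ ≤ 2 / ‖s - 1‖ + 1 := by
    rw [norm_mul]
    have h4 := tail_le hsre (N := NN q t) (M := M) (by omega) hM
    have h5 : ‖s‖ / NN q t ≤ 1 := by
      rw [div_le_one hN0]
      refine hsn.trans (le_trans ?_ hx)
      nlinarith [abs_nonneg t]
    calc ‖c‖ * ‖∑ n ∈ Ioc (NN q t) M, (n : ℂ) ^ (-s)‖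
        ≤ 1 * ‖∑ n ∈ Ioc (NN q t) M, (n : ℂ) ^ (-s)‖ :=
          mul_le_mul_of_nonneg_right hcn (norm_nonneg _)
      _ ≤ 2 / ‖s - 1‖ + 1 := by
          rw [one_mul]
          linarith
  have hinv : 2 / ‖s - 1‖ = 2 * (1 / ‖s - 1‖) := by ring
  have hpos : 0 ≤ 1 / ‖s - 1‖ := by positivity
  rw [htail]
  calc _ ≤ ‖∑ n ∈ Icc 1 (NN q t), χ (n : ZMod q) * (n : ℂ) ^ (-s)‖ +
        (‖∑ n ∈ Ioc (NN q t) M, (χ (n : ZMod q) - c) * (n : ℂ) ^ (-s)‖ +
          ‖c * ∑ n ∈ Ioc (NN q t) M, (n : ℂ) ^ (-s)‖) :=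
        (norm_add_le _ _).trans (add_le_add le_rfl (norm_add_le _ _))
    _ ≤ (1 + Real.log (NN q t)) + (C + (2 / ‖s - 1‖ + 1)) :=
        add_le_add hhead (add_le_add ht1 ht2)
    _ ≤ (5 + C) * (1 / ‖s - 1‖ + LL q t) := by
        rw [hinv]
        nlinarith [mul_nonneg hC.le hpos, mul_nonneg hC.le (sub_nonneg.2 hLL)]

end Pool.Agent.Lib.MP_6bc78b_nt.SW
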