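import Pool.Agent.Lib.MP_6bc78b_nt.SW.CHB
import Pool.Agent.Lib.MP_6bc78b_nt.SW.H16.PSJ
import Pool.Agent.Lib.MP_6bc78b_nt.SW.UBN
import Pool.Agent.Lib.MP_6bc78b_nt.SW.UBP
import Pool.Agent.Lib.MP_6bc78b_nt.SW.H30.Tlb
import Pool.Agent.Lib.MP_6bc78b_nt.SW.H76.Cnt
import Pool.Agent.Lib.MP_6bc78b_nt.SW.H76.Lbc
import Pool.Agent.Lib.MP_6bc78b_nt.SW.H76.Uns
import Pool.Agent.Lib.MP_6bc78b_nt.SW.LBR
import Pool.Agent.Lib.MP_6bc78b_nt.SW.SIEG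
import Pool.Agent.Lib.MP_6bc78b_nt.SW.H23.Per
import Pool.Agent.Lib.MP_6bc78b_nt.SW.H38.Leib
import Pool.Agent.Lib.MP_6bc78b_nt.SW.H64.Der
import Pool.Agent.Lib.MP_6bc78b_nt.SW.H93.Fin

/-! Siegel-Walfisz theorem: assembly. -/

namespace Pool.Agent.Lib.MP_6bc78b_nt.SW

/-- The Siegel-Walfisz theorem, no hypotheses. -/
theorem siegel_walfisz : SwStatement :=
  H93.fin
    (H64.der ubn leib (H76.lbc ubn H30.tlb H76.cnt)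
      (lbr (ubp chb psj) H30.tlb H76.cnt sieg))
    per H76.uns leib

end Pool.Agent.Lib.MP_6bc78b_nt.SW
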