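import Pool.Agent.Lib.MP_6bc78b_nt.SW.Iface

/-! # CHB: partial sums of a character -/

set_option autoImplicit false

open Complex Finset DirichletCharacter

namespace Pool.Agent.Lib.MP_6bc78b_nt.SW

namespace Chb

/-- sums over complete periods -/
lemma sum_period {f : ℕ → ℂ} {q : ℕ} (hf : ∀ n, f (n + q) = f n) (a r : ℕ) :
    ∑ n ∈ range (a * q + r), f n = a * ∑ n ∈ range q, f n + ∑ n ∈ range r, f n := by
  induction a with
  | zero => simp
  | succ a ih =>
    have h1 : (a + 1) * q + r = q + (a * q + r) := by ring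
    rw [h1, Finset.sum_range_add]
    have h2 : ∑ x ∈ range (a * q + r), f (q + x) = ∑ x ∈ range (a * q + r), f x :=
      Finset.sum_congr rfl fun x _ => by rw [add_comm, hf]
    rw [h2, ih]
    push_cast
    ring

lemma sum_zmod (q : ℕ) [NeZero q] (f : ZMod q → ℂ) :
    ∑ n ∈ range q, f (n : ZMod q) = ∑ z : ZMod q, f z := by
  obtain ⟨m, rfl⟩ : ∃ m, q = m + 1 := ⟨q - 1, by have := NeZero.pos q; omega⟩
  rw [← Fin.sum_univ_eq_sum_range (fun n => f (n : ZMod (m + 1)))]
  refine Finset.sum_congr rfl fun x _ => ?_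
  congr 1
  exact Fin.cast_val_eq_self x

/-- a sum of at most `r` values of a character -/
lemma norm_le {q : ℕ} (χ : DirichletCharacter ℂ q) (s : Finset ℕ) :
    ‖∑ n ∈ s, χ (n : ZMod q)‖ ≤ s.card := by
  refine (norm_sum_le _ _).trans ?_
  calc ∑ n ∈ s, ‖χ (n : ZMod q)‖ ≤ ∑ _n ∈ s, (1 : ℝ) :=
        Finset.sum_le_sum fun n _ => χ.norm_le_one _
    _ = s.card := by simp

end Chb

open Chb in
theorem chb : ChbStatement := by
  refine ⟨?_, ?_⟩
  · intro q hq χ hχ N
    haveI : NeZero q := ⟨by omega⟩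
    have hper : ∀ n : ℕ, χ ((n + q : ℕ) : ZMod q) = χ (n : ZMod q) := fun n => by simp
    have hsum : ∑ n ∈ range q, χ (n : ZMod q) = 0 := by
      rw [sum_zmod q fun z => χ z]
      exact MulChar.sum_eq_zero_of_ne_one hχ
    -- shift by one
    have hshift : ∑ n ∈ Icc 1 N, χ (n : ZMod q) = ∑ n ∈ range N, χ ((n + 1 : ℕ) : ZMod q) := by
      rw [Finset.range_eq_Ico, Finset.sum_Ico_add' (fun n : ℕ => χ (n : ZMod q)) 0 N 1]
      rfl
    have hper1 : ∀ n : ℕ, χ ((n + q + 1 : ℕ) : ZMod q) = χ ((n + 1 : ℕ) : ZMod q) := fun n => by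
      rw [show n + q + 1 = (n + 1) + q by ring, hper]
    have hsum1 : ∑ n ∈ range q, χ ((n + 1 : ℕ) : ZMod q) = 0 := by
      have h1 := Finset.sum_range_succ (fun n : ℕ => χ (n : ZMod q)) q
      have h2 := Finset.sum_range_succ' (fun n : ℕ => χ (n : ZMod q)) q
      rw [h1, hsum] at h2
      have h3 : χ ((q : ℕ) : ZMod q) = χ ((0 : ℕ) : ZMod q) := by simp
      rw [h3] at h2
      simpa using h2.symm
    rw [hshift, ← Nat.div_add_mod' N q, sum_period (f := fun n => χ ((n + 1 : ℕ) : ZMod q)) hper1,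
      hsum1, mul_zero, zero_add]
    have h4 : ‖∑ n ∈ range (N % q), χ ((n + 1 : ℕ) : ZMod q)‖ ≤ (N % q : ℕ) := by
      refine (norm_sum_le _ _).trans ?_
      calc ∑ n ∈ range (N % q), ‖χ ((n + 1 : ℕ) : ZMod q)‖ ≤ ∑ _n ∈ range (N % q), (1 : ℝ) :=
            Finset.sum_le_sum fun n _ => χ.norm_le_one _
        _ = (N % q : ℕ) := by simp
    exact h4.trans (by exact_mod_cast (Nat.mod_lt N (by omega)).le)
  · intro q hq N
    haveI : NeZero q := ⟨by omega⟩
    set χ : DirichletCharacter ℂ q := 1 with hχ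
    have hper : ∀ n : ℕ, χ ((n + q : ℕ) : ZMod q) = χ (n : ZMod q) := fun n => by simp
    have hsum : ∑ n ∈ range q, χ (n : ZMod q) = (q.totient : ℂ) := by
      rw [sum_zmod q fun z => χ z, hχ, MulChar.sum_one_eq_card_units, ZMod.card_units_eq_totient]
    have hshift : ∑ n ∈ Icc 1 N, χ (n : ZMod q) = ∑ n ∈ range N, χ ((n + 1 : ℕ) : ZMod q) := by
      rw [Finset.range_eq_Ico, Finset.sum_Ico_add' (fun n : ℕ => χ (n : ZMod q)) 0 N 1]
      rfl
    have hper1 : ∀ n : ℕ, χ ((n + q + 1 : ℕ) : ZMod q) = χ ((n + 1 : ℕ) : ZMod q) := fun n => by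
      rw [show n + q + 1 = (n + 1) + q by ring, hper]
    have hsum1 : ∑ n ∈ range q, χ ((n + 1 : ℕ) : ZMod q) = (q.totient : ℂ) := by
      have h1 := Finset.sum_range_succ (fun n : ℕ => χ (n : ZMod q)) q
      have h2 := Finset.sum_range_succ' (fun n : ℕ => χ (n : ZMod q)) q
      rw [h1, hsum] at h2
      have h3 : χ ((q : ℕ) : ZMod q) = χ ((0 : ℕ) : ZMod q) := by simp
      rw [h3] at h2
      exact (add_right_cancel h2).symm
    rw [hshift]
    have hN : ∑ n ∈ range N, χ ((n + 1 : ℕ) : ZMod q) =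
        (N / q : ℕ) * (q.totient : ℂ) + ∑ n ∈ range (N % q), χ ((n + 1 : ℕ) : ZMod q) := by
      conv_lhs => rw [← Nat.div_add_mod' N q]
      rw [sum_period (f := fun n => χ ((n + 1 : ℕ) : ZMod q)) hper1, hsum1]
    have hq0 : (q : ℂ) ≠ 0 := by exact_mod_cast (by omega : q ≠ 0)
    have hNc : (N : ℂ) = (N / q : ℕ) * q + (N % q : ℕ) := by
      exact_mod_cast (Nat.div_add_mod' N q).symm
    have hdiff : ∑ n ∈ range N, χ ((n + 1 : ℕ) : ZMod q) - (q.totient : ℂ) / q * N =
        ∑ n ∈ range (N % q), (χ ((n + 1 : ℕ) : ZMod q) - (q.totient : ℂ) / q) := by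
      rw [hN, hNc, Finset.sum_sub_distrib, Finset.sum_const, Finset.card_range, nsmul_eq_mul]
      field_simp
      ring
    rw [hdiff]
    -- each term is at most one in absolute value
    have hterm : ∀ n : ℕ, ‖χ ((n + 1 : ℕ) : ZMod q) - (q.totient : ℂ) / q‖ ≤ 1 := by
      intro n
      have hφ : (q.totient : ℝ) / q ≤ 1 := by
        rw [div_le_one (by exact_mod_cast hq)]
        exact_mod_cast Nat.totient_le q
      have hφ0 : 0 ≤ (q.totient : ℝ) / q := by positivity
      have hcast : ((q.totient : ℂ) / q) = (((q.totient : ℝ) / q : ℝ) : ℂ) := by push_cast; rfl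
      by_cases hu : IsUnit (((n + 1 : ℕ) : ZMod q))
      · rw [hχ, MulChar.one_apply hu, hcast, ← Complex.ofReal_one, ← Complex.ofReal_sub,
          Complex.norm_real, Real.norm_eq_abs, abs_le]
        constructor <;> linarith
      · rw [MulChar.map_nonunit _ hu, zero_sub, norm_neg, hcast, Complex.norm_real,
          Real.norm_eq_abs, abs_of_nonneg hφ0]
        exact hφ
    refine (norm_sum_le _ _).trans ?_
    calc ∑ n ∈ range (N % q), ‖χ ((n + 1 : ℕ) : ZMod q) - (q.totient : ℂ) / q‖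
          ≤ ∑ _n ∈ range (N % q), (1 : ℝ) := Finset.sum_le_sum fun n _ => hterm n
      _ = (N % q : ℕ) := by simp
      _ ≤ q := by exact_mod_cast (Nat.mod_lt N (by omega)).le

end Pool.Agent.Lib.MP_6bc78b_nt.SW
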