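import Pool.Agent.Lib.MP_6bc78b_nt.SW.LogBound

open Finset Filter Complex
open scoped Topology ComplexOrder ArithmeticFunction.vonMangoldt

namespace Pool.Agent.Lib.MP_6bc78b_nt.SW.H6

/-- the product of two characters of different moduli -/
noncomputable def prodChar {q₁ q₂ : ℕ} (χ₁ : DirichletCharacter ℂ q₁)
    (χ₂ : DirichletCharacter ℂ q₂) : DirichletCharacter ℂ (q₁ * q₂) :=
  DirichletCharacter.changeLevel (q₁.dvd_mul_right q₂) χ₁ *
    DirichletCharacter.changeLevel (q₂.dvd_mul_left q₁) χ₂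

theorem prodChar_apply {q₁ q₂ : ℕ} (χ₁ : DirichletCharacter ℂ q₁)
    (χ₂ : DirichletCharacter ℂ q₂) (n : ℕ) :
    prodChar χ₁ χ₂ (n : ZMod (q₁ * q₂)) = χ₁ (n : ZMod q₁) * χ₂ (n : ZMod q₂) := by
  by_cases hn : Nat.Coprime n (q₁ * q₂)
  · have hc : IsCoprime (n : ℤ) ((q₁ * q₂ : ℕ) : ℤ) := Nat.isCoprime_iff_coprime.2 hn
    have h1 := DirichletCharacter.changeLevel_eq_cast_of_dvd' χ₁ (q₁.dvd_mul_right q₂) hc
    have h2 := DirichletCharacter.changeLevel_eq_cast_of_dvd' χ₂ (q₂.dvd_mul_left q₁) hc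
    rw [prodChar, MulChar.mul_apply]
    simp only [Int.cast_natCast] at h1 h2
    rw [h1, h2]
  · have h0 : ¬ IsUnit ((n : ℕ) : ZMod (q₁ * q₂)) := by
      rwa [ZMod.isUnit_iff_coprime]
    rw [MulChar.map_nonunit _ h0]
    rw [Nat.coprime_mul_iff_right, not_and_or] at hn
    rcases hn with hn | hn
    · have h1 : ¬ IsUnit ((n : ℕ) : ZMod q₁) := by rwa [ZMod.isUnit_iff_coprime]
      rw [MulChar.map_nonunit χ₁ h1, zero_mul]
    · have h1 : ¬ IsUnit ((n : ℕ) : ZMod q₂) := by rwa [ZMod.isUnit_iff_coprime]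
      rw [MulChar.map_nonunit χ₂ h1, mul_zero]

/-- derivatives of a function with positive logarithmic derivative series -/
theorem alternating_of_deriv_eq {F D : ℂ → ℂ} {x : ℂ} (hF : AnalyticAt ℂ F x)
    (hD : AnalyticAt ℂ D x) (hFD : deriv F =ᶠ[𝓝 x] fun z => -(F z * D z))
    (h0 : 0 ≤ F x) (hDx : ∀ n : ℕ, 0 ≤ (-1) ^ n * iteratedDeriv n D x) (n : ℕ) :
    0 ≤ (-1) ^ n * iteratedDeriv n F x := by
  induction n using Nat.strong_induction_on with
  | _ n ih =>
    rcases n with _ | n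
    · simpa using h0
    · have e1 : iteratedDeriv (n + 1) F x = iteratedDeriv n (deriv F) x := by
        rw [iteratedDeriv_succ']
      have e2 : iteratedDeriv n (deriv F) x = iteratedDeriv n (fun z => -(F z * D z)) x :=
        hFD.iteratedDeriv_eq n
      have e3 : iteratedDeriv n (fun z => -(F z * D z)) x
          = -∑ i ∈ range (n + 1), n.choose i * iteratedDeriv i F x * iteratedDeriv (n - i) D x := by
        rw [iteratedDeriv_fun_neg]
        congr 1
        exact iteratedDeriv_mul (hF.contDiffAt) (hD.contDiffAt)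
      rw [e1, e2, e3, pow_succ]
      have e4 : (-1 : ℂ) ^ n * -1 * -∑ i ∈ range (n + 1),
            n.choose i * iteratedDeriv i F x * iteratedDeriv (n - i) D x
          = ∑ i ∈ range (n + 1), (n.choose i : ℂ) * (((-1) ^ i * iteratedDeriv i F x) *
            ((-1) ^ (n - i) * iteratedDeriv (n - i) D x)) := by
        rw [mul_assoc, neg_one_mul, neg_neg, Finset.mul_sum]
        refine Finset.sum_congr rfl fun i hi => ?_
        have hi' : i ≤ n := Nat.lt_succ_iff.1 (Finset.mem_range.1 hi)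
        have : (-1 : ℂ) ^ n = (-1) ^ i * (-1) ^ (n - i) := by
          rw [← pow_add, Nat.add_sub_cancel' hi']
        rw [this]; ring
      rw [e4]
      refine Finset.sum_nonneg fun i hi => ?_
      have hi' : i < n + 1 := Finset.mem_range.1 hi
      refine mul_nonneg ?_ (mul_nonneg (ih i hi') (hDx _))
      exact_mod_cast Nat.cast_nonneg (α := ℝ) (n.choose i)

theorem deriv_LFunction_eq {q : ℕ} [NeZero q] (χ : DirichletCharacter ℂ q) {s : ℂ}
    (hs : 1 < s.re) :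
    deriv χ.LFunction s = -(χ.LFunction s * LSeries (chf χ * vmf) s) := by
  rw [χ.LSeries_twist_vonMangoldt_eq hs]
  have h1 : deriv (LSeries (chf χ)) s = deriv χ.LFunction s := by
    refine Filter.EventuallyEq.deriv_eq ?_
    filter_upwards [(isOpen_lt continuous_const continuous_re).mem_nhds hs] with z hz
    exact (χ.LFunction_eq_LSeries hz).symm
  rw [h1, χ.LFunction_eq_LSeries hs, neg_div, mul_neg, neg_neg, mul_div_cancel₀]
  exact χ.LSeries_ne_zero_of_one_lt_re hs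

theorem deriv_riemannZeta_eq {s : ℂ} (hs : 1 < s.re) :
    deriv riemannZeta s = -(riemannZeta s * LSeries vmf s) := by
  rw [ArithmeticFunction.LSeries_vonMangoldt_eq_deriv_riemannZeta_div hs, neg_div, mul_neg,
    neg_neg, mul_div_cancel₀]
  exact riemannZeta_ne_zero_of_one_lt_re hs

/-- the coefficients of the logarithmic derivative -/
noncomputable def dcoef {q₁ q₂ : ℕ} (χ₁ : DirichletCharacter ℂ q₁)
    (χ₂ : DirichletCharacter ℂ q₂) (n : ℕ) : ℂ :=
  (1 + χ₁ (n : ZMod q₁)) * (1 + χ₂ (n : ZMod q₂)) * ((Λ n : ℝ) : ℂ)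

/-- the auxiliary product -/
noncomputable def FF {q₁ q₂ : ℕ} [NeZero q₁] [NeZero q₂] (χ₁ : DirichletCharacter ℂ q₁)
    (χ₂ : DirichletCharacter ℂ q₂) (s : ℂ) : ℂ :=
  riemannZeta s * (χ₁.LFunction s * χ₂.LFunction s * (prodChar χ₁ χ₂).LFunction s)

theorem dcoef_eq {q₁ q₂ : ℕ} (χ₁ : DirichletCharacter ℂ q₁)
    (χ₂ : DirichletCharacter ℂ q₂) :
    dcoef χ₁ χ₂ = ((vmf + (chf χ₁ * vmf)) + (chf χ₂ * vmf)) + (chf (prodChar χ₁ χ₂) * vmf) := by
  funext n
  simp only [dcoef, Pi.add_apply, Pi.mul_apply, prodChar_apply]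
  ring

theorem LSeriesSummable_dcoef {q₁ q₂ : ℕ} (χ₁ : DirichletCharacter ℂ q₁)
    (χ₂ : DirichletCharacter ℂ q₂) {s : ℂ} (hs : 1 < s.re) :
    LSeriesSummable (dcoef χ₁ χ₂) s := by
  rw [dcoef_eq]
  exact (((ArithmeticFunction.LSeriesSummable_vonMangoldt hs).add
    (χ₁.LSeriesSummable_twist_vonMangoldt hs)).add
    (χ₂.LSeriesSummable_twist_vonMangoldt hs)).add
    ((prodChar χ₁ χ₂).LSeriesSummable_twist_vonMangoldt hs)

theorem LSeries_dcoef {q₁ q₂ : ℕ} (χ₁ : DirichletCharacter ℂ q₁)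
    (χ₂ : DirichletCharacter ℂ q₂) {s : ℂ} (hs : 1 < s.re) :
    LSeries (dcoef χ₁ χ₂) s = LSeries vmf s + LSeries (chf χ₁ * vmf) s + LSeries (chf χ₂ * vmf) s
      + LSeries (chf (prodChar χ₁ χ₂) * vmf) s := by
  rw [dcoef_eq, LSeries_add, LSeries_add, LSeries_add]
  · exact ArithmeticFunction.LSeriesSummable_vonMangoldt hs
  · exact χ₁.LSeriesSummable_twist_vonMangoldt hs
  · exact (ArithmeticFunction.LSeriesSummable_vonMangoldt hs).add
      (χ₁.LSeriesSummable_twist_vonMangoldt hs)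
  · exact χ₂.LSeriesSummable_twist_vonMangoldt hs
  · exact ((ArithmeticFunction.LSeriesSummable_vonMangoldt hs).add
      (χ₁.LSeriesSummable_twist_vonMangoldt hs)).add
      (χ₂.LSeriesSummable_twist_vonMangoldt hs)
  · exact (prodChar χ₁ χ₂).LSeriesSummable_twist_vonMangoldt hs

theorem real_values {q : ℕ} {χ : DirichletCharacter ℂ q} (h : χ ^ 2 = 1) (a : ZMod q) :
    χ a = 0 ∨ χ a = 1 ∨ χ a = -1 := MulChar.isQuadratic_iff_sq_eq_one.2 h a

theorem one_add_nonneg {q : ℕ} {χ : DirichletCharacter ℂ q} (h : χ ^ 2 = 1) (a : ZMod q) :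
    0 ≤ 1 + χ a := by
  rcases real_values h a with h | h | h <;> rw [h]
  · rw [add_zero]; exact zero_le_one
  · exact add_nonneg zero_le_one zero_le_one
  · rw [add_neg_cancel]

theorem dcoef_nonneg {q₁ q₂ : ℕ} {χ₁ : DirichletCharacter ℂ q₁}
    {χ₂ : DirichletCharacter ℂ q₂} (h₁ : χ₁ ^ 2 = 1) (h₂ : χ₂ ^ 2 = 1) :
    0 ≤ dcoef χ₁ χ₂ := by
  intro n
  refine mul_nonneg (mul_nonneg (one_add_nonneg h₁ _) (one_add_nonneg h₂ _)) ?_
  exact Complex.zero_le_real.2 ArithmeticFunction.vonMangoldt_nonneg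

theorem abscissa_dcoef {q₁ q₂ : ℕ} (χ₁ : DirichletCharacter ℂ q₁)
    (χ₂ : DirichletCharacter ℂ q₂) : LSeries.abscissaOfAbsConv (dcoef χ₁ χ₂) ≤ 1 := by
  refine LSeries.abscissaOfAbsConv_le_of_forall_lt_LSeriesSummable (x := 1) fun y hy => ?_
  exact LSeriesSummable_dcoef χ₁ χ₂ (by simpa using hy)

theorem differentiableAt_zeta_of_one_lt {s : ℂ} (hs : 1 < s.re) :
    DifferentiableAt ℂ riemannZeta s :=
  differentiableAt_riemannZeta (by rintro rfl; simp at hs)

theorem deriv_FF {q₁ q₂ : ℕ} [NeZero q₁] [NeZero q₂] {χ₁ : DirichletCharacter ℂ q₁}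
    {χ₂ : DirichletCharacter ℂ q₂} (h₁ : χ₁ ≠ 1) (h₂ : χ₂ ≠ 1) (h₃ : prodChar χ₁ χ₂ ≠ 1)
    {s : ℂ} (hs : 1 < s.re) :
    deriv (FF χ₁ χ₂) s = -(FF χ₁ χ₂ s * LSeries (dcoef χ₁ χ₂) s) := by
  have d0 := (differentiableAt_zeta_of_one_lt hs).hasDerivAt
  have d1 := ((DirichletCharacter.differentiable_LFunction h₁) s).hasDerivAt
  have d2 := ((DirichletCharacter.differentiable_LFunction h₂) s).hasDerivAt
  have d3 := ((DirichletCharacter.differentiable_LFunction h₃) s).hasDerivAt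
  have := (d0.mul ((d1.mul d2).mul d3)).deriv
  have e : deriv (FF χ₁ χ₂) s = _ := this
  rw [e, deriv_riemannZeta_eq hs, deriv_LFunction_eq _ hs, deriv_LFunction_eq _ hs,
    deriv_LFunction_eq _ hs, LSeries_dcoef χ₁ χ₂ hs, FF]
  simp only [Pi.mul_apply]
  ring

theorem analyticAt_FF {q₁ q₂ : ℕ} [NeZero q₁] [NeZero q₂] {χ₁ : DirichletCharacter ℂ q₁}
    {χ₂ : DirichletCharacter ℂ q₂} (h₁ : χ₁ ≠ 1) (h₂ : χ₂ ≠ 1) (h₃ : prodChar χ₁ χ₂ ≠ 1)
    {s : ℂ} (hs : s ≠ 1) : AnalyticAt ℂ (FF χ₁ χ₂) s := by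
  have d0 : AnalyticAt ℂ riemannZeta s := by
    have : DifferentiableOn ℂ riemannZeta {1}ᶜ :=
      fun z hz => (differentiableAt_riemannZeta hz).differentiableWithinAt
    exact this.analyticAt (isOpen_compl_singleton.mem_nhds hs)
  have d1 := (DirichletCharacter.differentiable_LFunction h₁).analyticAt s
  have d2 := (DirichletCharacter.differentiable_LFunction h₂).analyticAt s
  have d3 := (DirichletCharacter.differentiable_LFunction h₃).analyticAt s
  exact d0.mul ((d1.mul d2).mul d3)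

/-- value at `2` of a real `L`-function -/
theorem LFunction_two_re {q : ℕ} [NeZero q] (χ : DirichletCharacter ℂ q) :
    (1 : ℝ) / 3 ≤ (χ.LFunction 2).re := by
  have h2 : (1 : ℝ) < (2 : ℂ).re := by norm_num
  have hs := (χ.LSeriesSummable_of_one_lt_re h2).hasSum
  have hL : χ.LFunction 2 = LSeries (chf χ) 2 := χ.LFunction_eq_LSeries h2
  have h3 : HasSum (fun n => (LSeries.term (chf χ) 2 n).re) (χ.LFunction 2).re := by
    rw [hL]
    exact Complex.hasSum_re hs
  have h4 : HasSum (fun n : ℕ => -(1 / (n : ℝ) ^ 2) + (if n = 1 then (2 : ℝ) else 0))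
      (-(Real.pi ^ 2 / 6) + 2) :=
    hasSum_zeta_two.neg.add (hasSum_ite_eq 1 (2 : ℝ))
  have h5 := hasSum_le (fun n => ?_) h4 h3
  · have := Real.pi_lt_d2
    have hp := Real.pi_pos
    nlinarith
  · rcases eq_or_ne n 0 with rfl | hn
    · simp
    · rcases eq_or_ne n 1 with rfl | hn1
      · rw [LSeries.term_of_ne_zero one_ne_zero]
        have hc1 : chf χ 1 = 1 := by simp [chf]
        rw [hc1]
        simp
        norm_num
      · rw [if_neg hn1, add_zero]
        have h6 : ‖LSeries.term (chf χ) 2 n‖ ≤ 1 / (n : ℝ) ^ 2 := by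
          rw [LSeries.term_of_ne_zero hn, norm_div]
          have : ‖(n : ℂ) ^ (2 : ℂ)‖ = (n : ℝ) ^ 2 := by
            have e : (n : ℂ) ^ (2 : ℂ) = (n : ℂ) ^ (2 : ℕ) := by
              rw [← Complex.cpow_natCast]; norm_num
            rw [e, norm_pow, Complex.norm_natCast]
          rw [this]
          exact div_le_div_of_nonneg_right (χ.norm_le_one _) (by positivity)
        have h7 := (abs_le.1 ((Complex.abs_re_le_norm _).trans h6)).1
        linarith

end Pool.Agent.Lib.MP_6bc78b_nt.SW.H6
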