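import Mathlib

open Finset Filter Complex Metric
open scoped Topology ComplexOrder Nat

namespace Pool.Agent.Lib.MP_6bc78b_nt.SW.H6

theorem iteratedDeriv_inv_sub_one (n : ℕ) :
    iteratedDeriv n (fun s : ℂ => (s - 1)⁻¹) 2 = (-1) ^ n * (n ! : ℂ) := by
  have h := congrFun (iteratedDeriv_comp_sub_const (𝕜 := ℂ) (F := ℂ) n (fun z => z⁻¹) 1) 2
  have h' : iteratedDeriv n (fun s : ℂ => (s - 1)⁻¹) 2 = iteratedDeriv n (fun z : ℂ => z⁻¹) (2 - 1) := h
  rw [h', iteratedDeriv_eq_iterate, iter_deriv_inv]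
  norm_num

/-- Estermann's lemma on functions with a simple pole at `1` and alternating derivatives at `2` -/
theorem estermann {H : ℂ → ℂ} (hH : Differentiable ℂ H) {A b₀ l : ℝ} (hl : H 1 = (l : ℂ))
    (hl0 : 0 ≤ l) (hA : ∀ s ∈ sphere (2 : ℂ) (3 / 2), ‖dslope H 1 s‖ ≤ A)
    (halt : ∀ n : ℕ, 0 ≤ (-1) ^ n * iteratedDeriv n (fun s => H s * (s - 1)⁻¹) 2)
    (h0 : b₀ ≤ (H 2).re) {x : ℝ} (hx : 7 / 8 ≤ x) (hx1 : x < 1) {M : ℕ} (hM : 1 ≤ M) :
    b₀ - 4 * A * (3 / 4) ^ M - l * Real.exp (M * (1 - x)) / (1 - x) ≤ (H x).re / (x - 1) := by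
  set D := dslope H 1 with hDdef
  have hDd : Differentiable ℂ D := by
    rw [← differentiableOn_univ, hDdef]
    exact (Complex.differentiableOn_dslope univ_mem).2 hH.differentiableOn
  have hA0 : 0 ≤ A := by
    have : (2 : ℂ) + (3 / 2 : ℝ) ∈ sphere (2 : ℂ) (3 / 2) := by
      rw [mem_sphere_iff_norm]
      simp only [add_sub_cancel_left]
      rw [Complex.norm_real]
      norm_num
    exact (norm_nonneg _).trans (hA _ this)
  -- the Taylor coefficients
  have hDeq : ∀ n : ℕ, iteratedDeriv n D 2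
      = iteratedDeriv n (fun s => H s * (s - 1)⁻¹) 2 - l * ((-1) ^ n * (n ! : ℂ)) := by
    intro n
    have he : D =ᶠ[𝓝 2] fun s => (H s * (s - 1)⁻¹) - l * (s - 1)⁻¹ := by
      filter_upwards [isOpen_ne.mem_nhds (by norm_num : (2 : ℂ) ≠ 1)] with s hs
      rw [hDdef, dslope_of_ne _ hs, slope_def_field, hl]
      rw [div_eq_mul_inv]; ring
    rw [he.iteratedDeriv_eq n]
    have c1 : ContDiffAt ℂ n (fun s : ℂ => (s - 1)⁻¹) 2 := by
      refine ContDiffAt.inv (contDiffAt_id.sub contDiffAt_const) (by simp; norm_num)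
    have c2 : ContDiffAt ℂ n (fun s : ℂ => H s * (s - 1)⁻¹) 2 :=
      (hH.contDiff.contDiffAt).mul c1
    have c3 : ContDiffAt ℂ n (fun s : ℂ => (l : ℂ) * (s - 1)⁻¹) 2 := contDiffAt_const.mul c1
    rw [iteratedDeriv_fun_sub c2 c3]
    congr 1
    rw [iteratedDeriv_const_mul_field, iteratedDeriv_inv_sub_one]
  set y : ℝ := 2 - x with hy
  have hy1 : 1 < y := by linarith
  have hy2 : y ≤ 9 / 8 := by linarith
  set c : ℕ → ℂ := fun n => (-1) ^ n * iteratedDeriv n D 2 * ((n ! : ℂ))⁻¹ with hc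
  have hfac : ∀ n : ℕ, (0 : ℝ) < (n ! : ℝ) := fun n => by exact_mod_cast Nat.factorial_pos n
  have hcre : ∀ n, -l ≤ (c n).re := by
    intro n
    have h1 : c n = (((-1) ^ n * iteratedDeriv n (fun s => H s * (s - 1)⁻¹) 2)) * ((n ! : ℝ)⁻¹ : ℝ)
        - l := by
      rw [hc]
      simp only
      rw [hDeq n]
      have hf : ((n ! : ℕ) : ℂ) ≠ 0 := by exact_mod_cast (Nat.factorial_ne_zero n)
      have hpow : ((-1 : ℂ) ^ n) * (-1) ^ n = 1 := by
        rw [← mul_pow]; norm_num
      push_cast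
      field_simp
      linear_combination (-(l : ℂ) * (n ! : ℂ)) * hpow
    rw [h1, Complex.sub_re, Complex.ofReal_re, Complex.re_mul_ofReal]
    have h2 := (Complex.nonneg_iff.1 (halt n)).1
    have h3 : 0 ≤ ((-1) ^ n * iteratedDeriv n (fun s => H s * (s - 1)⁻¹) 2).re * (n ! : ℝ)⁻¹ :=
      mul_nonneg h2 (inv_nonneg.2 (hfac n).le)
    linarith
  have hc0 : b₀ - l ≤ (c 0).re := by
    have h1 : c 0 = H 2 - l := by
      rw [hc]
      simp only [pow_zero, iteratedDeriv_zero, Nat.factorial_zero, Nat.cast_one, inv_one, mul_one,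
        one_mul]
      rw [hDdef, dslope_of_ne _ (by norm_num : (2 : ℂ) ≠ 1), slope_def_field, hl]
      norm_num
    rw [h1, Complex.sub_re, Complex.ofReal_re]
    linarith
  have hcn : ∀ n, ‖c n‖ ≤ A * (2 / 3) ^ n := by
    intro n
    have h1 := Complex.norm_iteratedDeriv_le_of_forall_mem_sphere_norm_le (c := (2 : ℂ))
      (R := 3 / 2) (C := A) (f := D) n (by norm_num) hDd.diffContOnCl hA
    rw [hc]
    simp only
    rw [norm_mul, norm_mul, norm_pow, norm_neg, norm_one, one_pow, one_mul, norm_inv,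
      Complex.norm_natCast]
    rw [← div_eq_mul_inv, div_le_iff₀ (hfac n)]
    refine h1.trans (le_of_eq ?_)
    rw [div_eq_mul_inv, ← inv_pow]
    norm_num
    ring
  -- the Taylor series
  have hsum : HasSum (fun n => c n * (y : ℂ) ^ n) (D x) := by
    have hz : (x : ℂ) ∈ ball (2 : ℂ) 2 := by
      rw [mem_ball_iff_norm]
      have : (x : ℂ) - 2 = ((x - 2 : ℝ) : ℂ) := by push_cast; ring
      rw [this, Complex.norm_real, Real.norm_eq_abs, abs_lt]
      constructor <;> linarith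
    have h1 := Complex.hasSum_taylorSeries_on_ball (hDd.differentiableOn (s := ball 2 2)) hz
    have e : (fun n => c n * (y : ℂ) ^ n)
        = fun n : ℕ => ((n ! : ℂ)⁻¹ • ((x : ℂ) - 2) ^ n • iteratedDeriv n D 2) := by
      funext n
      rw [hc]
      simp only [smul_eq_mul]
      have : ((x : ℂ) - 2) ^ n = (-1) ^ n * (y : ℂ) ^ n := by
        rw [hy, ← mul_pow]; congr 1; push_cast; ring
      rw [this]
      ring
    rw [e]
    exact h1
  have hsplit := hsum.summable.sum_add_tsum_nat_add M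
  rw [hsum.tsum_eq] at hsplit
  -- the tail
  have htail : ‖∑' n, c (n + M) * (y : ℂ) ^ (n + M)‖ ≤ 4 * A * (3 / 4) ^ M := by
    have hg : HasSum (fun n : ℕ => A * (3 / 4) ^ M * (3 / 4 : ℝ) ^ n)
        (A * (3 / 4) ^ M * (1 - 3 / 4)⁻¹) :=
      (hasSum_geometric_of_lt_one (by norm_num) (by norm_num)).mul_left _
    have h2 := tsum_of_norm_bounded hg (f := fun n => c (n + M) * (y : ℂ) ^ (n + M)) (fun n => by
      rw [norm_mul, norm_pow, Complex.norm_real, Real.norm_eq_abs, abs_of_pos (by linarith)]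
      calc ‖c (n + M)‖ * y ^ (n + M) ≤ (A * (2 / 3) ^ (n + M)) * y ^ (n + M) :=
            mul_le_mul_of_nonneg_right (hcn _) (by positivity)
        _ = A * (2 / 3 * y) ^ (n + M) := by rw [mul_pow]; ring
        _ ≤ A * (3 / 4) ^ (n + M) := by
            refine mul_le_mul_of_nonneg_left ?_ hA0
            refine pow_le_pow_left₀ (by positivity) (by linarith) _
        _ = _ := by rw [pow_add]; ring)
    refine h2.trans (le_of_eq ?_)
    norm_num
    ring
  -- the head
  have hhead : b₀ - l * ∑ n ∈ range M, y ^ n ≤ (∑ n ∈ range M, c n * (y : ℂ) ^ n).re := by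
    obtain ⟨K, rfl⟩ := Nat.exists_eq_add_of_le' hM
    rw [Finset.sum_range_succ', Finset.sum_range_succ', Complex.add_re, Complex.re_sum]
    simp only [pow_zero, mul_one]
    have h1 : ∀ n ∈ range K, -l * y ^ (n + 1) ≤ (c (n + 1) * (y : ℂ) ^ (n + 1)).re := by
      intro n _
      rw [← Complex.ofReal_pow, Complex.re_mul_ofReal]
      exact mul_le_mul_of_nonneg_right (hcre _) (by positivity)
    have h2 := Finset.sum_le_sum h1
    rw [← Finset.mul_sum] at h2
    linarith
  have hgeom : ∑ n ∈ range M, y ^ n = (y ^ M - 1) / (1 - x) := by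
    rw [geom_sum_eq (by linarith), hy]
    congr 1
    ring
  have hexp : y ^ M ≤ Real.exp (M * (1 - x)) := by
    have h1 : y ≤ Real.exp (1 - x) := by
      have := Real.add_one_le_exp (1 - x)
      linarith
    calc y ^ M ≤ Real.exp (1 - x) ^ M := pow_le_pow_left₀ (by linarith) h1 _
      _ = _ := by rw [← Real.exp_nat_mul]
  have hDx : (D x).re = (H x).re / (x - 1) - l / (x - 1) := by
    have hx1' : (x : ℂ) ≠ 1 := by
      intro h
      have : x = 1 := by exact_mod_cast h
      linarith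
    rw [hDdef, dslope_of_ne _ hx1', slope_def_field, hl]
    have : (x : ℂ) - 1 = ((x - 1 : ℝ) : ℂ) := by push_cast; ring
    rw [this, Complex.div_ofReal_re, Complex.sub_re, Complex.ofReal_re, sub_div]
  have hre := congrArg Complex.re hsplit
  rw [Complex.add_re, hDx] at hre
  have ht := (abs_le.1 ((Complex.abs_re_le_norm _).trans htail)).1
  rw [hgeom] at hhead
  have hpos : 0 < 1 - x := by linarith
  have e1 : l / (x - 1) = -(l / (1 - x)) := by
    rw [← neg_sub 1 x, div_neg]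
  have e2 : l * ((y ^ M - 1) / (1 - x)) = l * y ^ M / (1 - x) - l / (1 - x) := by
    ring
  have e3 : l * y ^ M / (1 - x) ≤ l * Real.exp (M * (1 - x)) / (1 - x) := by
    gcongr
  rw [e1] at hre
  rw [e2] at hhead
  linarith

end Pool.Agent.Lib.MP_6bc78b_nt.SW.H6
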