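import Mathlib

open Finset Filter Complex MeasureTheory Set
open scoped Topology

namespace Pool.Agent.Lib.MP_6bc78b_nt.SW.H6

/-- a character as a function on the natural numbers -/
noncomputable abbrev chf {q : ℕ} (χ : DirichletCharacter ℂ q) : ℕ → ℂ := fun n => χ (n : ZMod q)

/-- the von Mangoldt function with complex values -/
noncomputable abbrev vmf : ℕ → ℂ := fun n => ((ArithmeticFunction.vonMangoldt n : ℝ) : ℂ)

/-- partial sums of a nonprincipal character are bounded by the modulus -/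
theorem sum_zmod_range {q : ℕ} [NeZero q] (f : ZMod q → ℂ) (n : ℕ) :
    ∑ k ∈ range q, f ((n + k : ℕ) : ZMod q) = ∑ a : ZMod q, f a := by
  have h1 : ∑ k ∈ range q, f ((n + k : ℕ) : ZMod q) = ∑ a : ZMod q, f ((n : ZMod q) + a) := by
    refine Finset.sum_nbij' (fun k => (k : ZMod q)) (fun a => a.val) ?_ ?_ ?_ ?_ ?_
    · intro a _; exact Finset.mem_univ _
    · intro a _; exact Finset.mem_range.2 (ZMod.val_lt a)
    · intro a ha; exact ZMod.val_cast_of_lt (Finset.mem_range.1 ha)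
    · intro a _; exact ZMod.natCast_zmod_val a
    · intro a _; push_cast; rfl
  rw [h1]
  exact Fintype.sum_equiv (Equiv.addLeft (n : ZMod q)) _ _ (fun a => rfl)

theorem norm_sum_range_le {q : ℕ} [NeZero q] {χ : DirichletCharacter ℂ q} (hχ : χ ≠ 1) (n : ℕ) :
    ‖∑ k ∈ range n, χ (k : ZMod q)‖ ≤ q := by
  have hper : Function.Periodic (fun n : ℕ => ∑ k ∈ range n, χ (k : ZMod q)) q := by
    intro n
    change ∑ k ∈ range (n + q), χ (k : ZMod q) = ∑ k ∈ range n, χ (k : ZMod q)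
    rw [Finset.sum_range_add, sum_zmod_range (fun a => χ a) n,
      MulChar.sum_eq_zero_of_ne_one hχ, add_zero]
  have h2 : ∑ k ∈ range (n % q), χ (k : ZMod q) = ∑ k ∈ range n, χ (k : ZMod q) :=
    hper.map_mod_nat n
  rw [← h2]
  have hq : 0 < q := Nat.pos_of_ne_zero (NeZero.ne q)
  calc ‖∑ k ∈ range (n % q), χ (k : ZMod q)‖ ≤ ∑ k ∈ range (n % q), ‖χ (k : ZMod q)‖ :=
        norm_sum_le _ _
    _ ≤ ∑ k ∈ range (n % q), (1 : ℝ) := Finset.sum_le_sum (fun k _ => χ.norm_le_one _)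
    _ = ((n % q : ℕ) : ℝ) := by simp
    _ ≤ q := by exact_mod_cast (Nat.mod_lt n hq).le

theorem one_lt_of_ne_one {q : ℕ} [NeZero q] {χ : DirichletCharacter ℂ q} (hχ : χ ≠ 1) : 1 < q := by
  rcases Nat.lt_or_ge 1 q with h | h
  · exact h
  · exfalso
    have h0 : q ≠ 0 := NeZero.ne q
    have h1 : q = 1 := by omega
    subst h1
    exact hχ (Subsingleton.elim _ _)

/-- the partial sum up to a real number -/
noncomputable def Sx {q : ℕ} (χ : DirichletCharacter ℂ q) (t : ℝ) : ℂ :=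
  ∑ k ∈ Icc 1 ⌊t⌋₊, χ (k : ZMod q)

theorem sum_Icc_eq {q : ℕ} [NeZero q] {χ : DirichletCharacter ℂ q} (hχ : χ ≠ 1) (n : ℕ) :
    ∑ k ∈ Icc 1 n, χ (k : ZMod q) = ∑ k ∈ range (n + 1), χ (k : ZMod q) := by
  have h1 := one_lt_of_ne_one hχ
  have : Fact (1 < q) := ⟨h1⟩
  rw [Finset.range_eq_Ico, Finset.sum_eq_sum_Ico_succ_bot (Nat.succ_pos n)]
  have h0 : χ ((0 : ℕ) : ZMod q) = 0 := by
    rw [Nat.cast_zero]
    exact χ.map_zero
  rw [h0, zero_add]
  rfl

theorem norm_Sx_le {q : ℕ} [NeZero q] {χ : DirichletCharacter ℂ q} (hχ : χ ≠ 1) (t : ℝ) :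
    ‖Sx χ t‖ ≤ q := by
  rw [Sx, sum_Icc_eq hχ]
  exact norm_sum_range_le hχ _

theorem measurable_Sx {q : ℕ} (χ : DirichletCharacter ℂ q) : Measurable (Sx χ) := by
  have h : Sx χ = (fun n : ℕ => ∑ k ∈ Icc 1 n, χ (k : ZMod q)) ∘ (fun t : ℝ => ⌊t⌋₊) := rfl
  rw [h]
  exact (measurable_from_nat).comp Nat.measurable_floor

/-- integral representation for `Re s > 1` -/
theorem LFunction_eq_integral_of_one_lt {q : ℕ} [NeZero q] {χ : DirichletCharacter ℂ q}
    (hχ : χ ≠ 1) {s : ℂ} (hs : 1 < s.re) :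
    χ.LFunction s = s * ∫ t in Set.Ioi (1 : ℝ), Sx χ t * (t : ℂ) ^ (-(s + 1)) := by
  rw [χ.LFunction_eq_LSeries hs]
  refine LSeries_eq_mul_integral (fun n => χ (n : ZMod q)) (r := 0) le_rfl (by linarith) ?_ ?_
  · exact χ.LSeriesSummable_of_one_lt_re hs
  · refine Asymptotics.IsBigO.of_bound (q : ℝ) (Eventually.of_forall fun n => ?_)
    rw [sum_Icc_eq hχ]
    simpa using norm_sum_range_le hχ (n + 1)

/-- the cut off partial sum function -/
noncomputable def Fx {q : ℕ} (χ : DirichletCharacter ℂ q) : ℝ → ℂ :=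
  Set.indicator (Set.Ioi (1 : ℝ)) (Sx χ)

theorem measurable_Fx {q : ℕ} (χ : DirichletCharacter ℂ q) : Measurable (Fx χ) :=
  (measurable_Sx χ).indicator measurableSet_Ioi

theorem norm_Fx_le {q : ℕ} [NeZero q] {χ : DirichletCharacter ℂ q} (hχ : χ ≠ 1) (t : ℝ) :
    ‖Fx χ t‖ ≤ q := by
  rw [Fx]
  exact (norm_indicator_le_norm_self _ _).trans (norm_Sx_le hχ t)

theorem integral_eq_mellin {q : ℕ} (χ : DirichletCharacter ℂ q) (s : ℂ) :
    ∫ t in Set.Ioi (1 : ℝ), Sx χ t * (t : ℂ) ^ (-(s + 1)) = mellin (Fx χ) (-s) := by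
  rw [mellin]
  have h1 : ∀ t : ℝ, (t : ℂ) ^ (-s - 1) • Fx χ t
      = Set.indicator (Set.Ioi (1 : ℝ)) (fun t => Sx χ t * (t : ℂ) ^ (-(s + 1))) t := by
    intro t
    rw [Fx]
    by_cases ht : t ∈ Set.Ioi (1 : ℝ)
    · rw [Set.indicator_of_mem ht, Set.indicator_of_mem ht, smul_eq_mul, mul_comm]
      congr 2
      ring
    · rw [Set.indicator_of_notMem ht, Set.indicator_of_notMem ht, smul_zero]
  simp_rw [h1]
  rw [setIntegral_indicator measurableSet_Ioi]
  congr 2
  ext t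
  simp only [Set.mem_Ioi, Set.mem_inter_iff]
  constructor
  · intro h; exact ⟨by linarith, h⟩
  · intro h; exact h.2

theorem differentiableAt_mellin {q : ℕ} [NeZero q] {χ : DirichletCharacter ℂ q} (hχ : χ ≠ 1)
    {z : ℂ} (hz : z.re < 0) : DifferentiableAt ℂ (mellin (Fx χ)) z := by
  refine mellin_differentiableAt_of_isBigO_rpow (a := 0) (b := z.re - 1) ?_ ?_ hz ?_ (by linarith)
  · refine LocallyIntegrable.locallyIntegrableOn ?_ _
    refine (MeasureTheory.locallyIntegrable_const (q : ℝ)).mono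
      (measurable_Fx χ).aestronglyMeasurable ?_
    refine Eventually.of_forall fun t => ?_
    rw [Real.norm_of_nonneg (Nat.cast_nonneg q)]
    exact norm_Fx_le hχ t
  · refine Asymptotics.IsBigO.of_bound (q : ℝ) (Eventually.of_forall fun t => ?_)
    simpa using norm_Fx_le hχ t
  · refine Asymptotics.IsBigO.of_bound 0 ?_
    have : ∀ᶠ t : ℝ in 𝓝[>] 0, t < 1 := by
      refine nhdsWithin_le_nhds (Iio_mem_nhds one_pos)
    filter_upwards [this] with t ht
    rw [Fx, Set.indicator_of_notMem (by simp only [Set.mem_Ioi, not_lt]; exact ht.le)]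
    simp

/-- integral representation for `Re s > 0` -/
theorem LFunction_eq_integral {q : ℕ} [NeZero q] {χ : DirichletCharacter ℂ q}
    (hχ : χ ≠ 1) {s : ℂ} (hs : 0 < s.re) :
    χ.LFunction s = s * ∫ t in Set.Ioi (1 : ℝ), Sx χ t * (t : ℂ) ^ (-(s + 1)) := by
  rw [integral_eq_mellin]
  set U : Set ℂ := {z | 0 < z.re} with hU
  have hUo : IsOpen U := isOpen_lt continuous_const Complex.continuous_re
  have hUc : IsPreconnected U := (convex_halfSpace_re_gt 0).isPreconnected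
  have hf : AnalyticOnNhd ℂ (fun z => χ.LFunction z) U := by
    refine DifferentiableOn.analyticOnNhd (fun z _ => ?_) hUo
    exact (DirichletCharacter.differentiable_LFunction hχ z).differentiableWithinAt
  have hg : AnalyticOnNhd ℂ (fun z => z * mellin (Fx χ) (-z)) U := by
    refine DifferentiableOn.analyticOnNhd (fun z hz => ?_) hUo
    refine DifferentiableAt.differentiableWithinAt ?_
    refine DifferentiableAt.mul differentiableAt_id ?_
    have h1 : DifferentiableAt ℂ (mellin (Fx χ)) (-z) :=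
      differentiableAt_mellin hχ (by simpa [hU] using hz)
    exact h1.comp z (differentiable_neg z)
  have h2 : (2 : ℂ) ∈ U := by simp [hU]
  have heq : (fun z => χ.LFunction z) =ᶠ[𝓝 (2 : ℂ)] (fun z => z * mellin (Fx χ) (-z)) := by
    have : {z : ℂ | 1 < z.re} ∈ 𝓝 (2 : ℂ) := by
      refine (isOpen_lt continuous_const Complex.continuous_re).mem_nhds ?_
      simp
    filter_upwards [this] with z hz
    rw [LFunction_eq_integral_of_one_lt hχ hz, integral_eq_mellin]
  exact hf.eqOn_of_preconnected_of_eventuallyEq hg hUc h2 heq hs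

theorem integrableOn_aux {q : ℕ} [NeZero q] {χ : DirichletCharacter ℂ q} (hχ : χ ≠ 1)
    {s : ℂ} (hs : 0 < s.re) {c : ℝ} (hc : 0 < c) :
    IntegrableOn (fun t : ℝ => Sx χ t * (t : ℂ) ^ (-(s + 1))) (Set.Ioi c) := by
  have h1 : IntegrableOn (fun t : ℝ => (q : ℝ) * t ^ (-(s.re + 1))) (Set.Ioi c) :=
    (integrableOn_Ioi_rpow_of_lt (by linarith) hc).const_mul _
  refine Integrable.mono h1 ?_ ?_
  · refine AEStronglyMeasurable.mul (measurable_Sx χ).aestronglyMeasurable ?_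
    refine ContinuousOn.aestronglyMeasurable ?_ measurableSet_Ioi
    intro t ht
    have ht0 : (0 : ℝ) < t := hc.trans ht
    refine ContinuousAt.continuousWithinAt ?_
    exact (continuousAt_cpow_const (Or.inl (by simpa using ht0))).comp
      Complex.continuous_ofReal.continuousAt
  · refine (ae_restrict_iff' measurableSet_Ioi).2 (Eventually.of_forall fun t ht => ?_)
    have ht0 : (0 : ℝ) < t := hc.trans ht
    rw [norm_mul, Complex.norm_cpow_eq_rpow_re_of_pos ht0, norm_mul,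
      Real.norm_of_nonneg (Nat.cast_nonneg q), Real.norm_of_nonneg (Real.rpow_nonneg ht0.le _)]
    have h2 : (-(s + 1)).re = -(s.re + 1) := by simp
    rw [h2]
    exact mul_le_mul_of_nonneg_right (norm_Sx_le hχ t) (Real.rpow_nonneg ht0.le _)

theorem norm_integral_tail_le {q : ℕ} [NeZero q] {χ : DirichletCharacter ℂ q} (hχ : χ ≠ 1)
    {s : ℂ} (hs : 0 < s.re) {c : ℝ} (hc : 0 < c) :
    ‖∫ t in Set.Ioi c, Sx χ t * (t : ℂ) ^ (-(s + 1))‖ ≤ q * (c ^ (-s.re) / s.re) := by
  have h1 : IntegrableOn (fun t : ℝ => (q : ℝ) * t ^ (-(s.re + 1))) (Set.Ioi c) :=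
    (integrableOn_Ioi_rpow_of_lt (by linarith) hc).const_mul _
  have h3 : ∫ t in Set.Ioi c, (q : ℝ) * t ^ (-(s.re + 1)) = q * (c ^ (-s.re) / s.re) := by
    rw [integral_const_mul, integral_Ioi_rpow_of_lt (by linarith) hc]
    have : -(s.re + 1) + 1 = -s.re := by ring
    rw [this, div_neg, neg_div, neg_neg]
  rw [← h3]
  refine norm_integral_le_of_norm_le h1 ?_
  refine (ae_restrict_iff' measurableSet_Ioi).2 (Eventually.of_forall fun t ht => ?_)
  have ht0 : (0 : ℝ) < t := hc.trans ht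
  rw [norm_mul, Complex.norm_cpow_eq_rpow_re_of_pos ht0]
  have h2 : (-(s + 1)).re = -(s.re + 1) := by simp
  rw [h2]
  exact mul_le_mul_of_nonneg_right (norm_Sx_le hχ t) (Real.rpow_nonneg ht0.le _)

/-- crude growth bound, `Re s > 0` -/
theorem norm_LFunction_le {q : ℕ} [NeZero q] {χ : DirichletCharacter ℂ q} (hχ : χ ≠ 1)
    {s : ℂ} (hs : 0 < s.re) : ‖χ.LFunction s‖ ≤ ‖s‖ * (q / s.re) := by
  rw [LFunction_eq_integral hχ hs, norm_mul]
  refine mul_le_mul_of_nonneg_left ?_ (norm_nonneg _)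
  have := norm_integral_tail_le hχ hs one_pos
  simpa [div_eq_mul_inv] using this

end Pool.Agent.Lib.MP_6bc78b_nt.SW.H6
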