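import Pool.Agent.Lib.MP_6bc78b_nt.SW.Coef
import Pool.Agent.Lib.MP_6bc78b_nt.SW.Estermann

open Finset Filter Complex Metric MeasureTheory
open scoped Topology ComplexOrder Nat

namespace Pool.Agent.Lib.MP_6bc78b_nt.SW.H6

theorem conj_real {q : ℕ} {χ : DirichletCharacter ℂ q} (h : χ ^ 2 = 1) (a : ZMod q) :
    (starRingEnd ℂ) (χ a) = χ a := by
  rcases real_values h a with h | h | h <;> rw [h] <;> simp

theorem LFunction_conj {q : ℕ} [NeZero q] {χ : DirichletCharacter ℂ q} (h : χ ^ 2 = 1)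
    (hχ : χ ≠ 1) {x : ℝ} (hx : 0 < x) : (starRingEnd ℂ) (χ.LFunction x) = χ.LFunction x := by
  have h0 : 0 < (x : ℂ).re := by simpa using hx
  rw [LFunction_eq_integral hχ h0, map_mul, Complex.conj_ofReal, ← integral_conj]
  congr 1
  refine setIntegral_congr_fun measurableSet_Ioi fun t ht => ?_
  have ht0 : (0 : ℝ) < t := zero_lt_one.trans ht
  rw [map_mul]
  congr 1
  · rw [Sx, map_sum]
    exact Finset.sum_congr rfl fun k _ => conj_real h _
  · have e : -((x : ℂ) + 1) = ((-(x + 1) : ℝ) : ℂ) := by push_cast; ring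
    rw [e, ← Complex.ofReal_cpow ht0.le, Complex.conj_ofReal]

theorem LFunction_im {q : ℕ} [NeZero q] {χ : DirichletCharacter ℂ q} (h : χ ^ 2 = 1)
    (hχ : χ ≠ 1) {x : ℝ} (hx : 0 < x) : (χ.LFunction x).im = 0 :=
  Complex.conj_eq_iff_im.1 (LFunction_conj h hχ hx)

theorem LFunction_ofReal {q : ℕ} [NeZero q] {χ : DirichletCharacter ℂ q} (h : χ ^ 2 = 1)
    (hχ : χ ≠ 1) {x : ℝ} (hx : 0 < x) : χ.LFunction x = (((χ.LFunction x).re : ℝ) : ℂ) := by
  apply Complex.ext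
  · simp
  · rw [LFunction_im h hχ hx, Complex.ofReal_im]

theorem LFunction_re_pos {q : ℕ} [NeZero q] {χ : DirichletCharacter ℂ q} (h : χ ^ 2 = 1)
    (hχ : χ ≠ 1) {a : ℝ} (ha : 0 < a) (ha2 : a ≤ 2)
    (hne : ∀ x : ℝ, a ≤ x → x < 1 → χ.LFunction x ≠ 0) : 0 < (χ.LFunction a).re := by
  by_contra hcon
  rw [not_lt] at hcon
  have hcont : ContinuousOn (fun x : ℝ => (χ.LFunction x).re) (Set.Icc a 2) :=
    (Complex.continuous_re.comp ((DirichletCharacter.differentiable_LFunction hχ).continuous.comp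
      Complex.continuous_ofReal)).continuousOn
  have h2 : 0 < (χ.LFunction ((2 : ℝ) : ℂ)).re := by
    have := LFunction_two_re χ
    have e : ((2 : ℝ) : ℂ) = 2 := by push_cast; rfl
    rw [e]; linarith
  obtain ⟨c, hc, hc0⟩ := intermediate_value_Icc ha2 hcont ⟨hcon, h2.le⟩
  have hc1 : χ.LFunction c = 0 := by
    rw [LFunction_ofReal h hχ (ha.trans_le hc.1)]
    have : (χ.LFunction c).re = 0 := hc0
    rw [this]; simp
  rcases lt_or_ge c 1 with h1 | h1
  · exact hne c hc.1 h1 hc1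
  · exact DirichletCharacter.LFunction_ne_zero_of_one_le_re χ (Or.inl hχ) (by simpa using h1) hc1

theorem LFunction_one_pos {q : ℕ} [NeZero q] {χ : DirichletCharacter ℂ q} (h : χ ^ 2 = 1)
    (hχ : χ ≠ 1) : 0 < (χ.LFunction 1).re := by
  have := LFunction_re_pos h hχ one_pos one_le_two (fun x hx hx1 => absurd hx1 (not_lt.2 hx))
  simpa using this

theorem LFunction_one_ofReal {q : ℕ} [NeZero q] {χ : DirichletCharacter ℂ q} (h : χ ^ 2 = 1)
    (hχ : χ ≠ 1) : χ.LFunction 1 = (((χ.LFunction 1).re : ℝ) : ℂ) := by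
  have := LFunction_ofReal h hχ one_pos
  simpa using this

theorem prodChar_sq {q₁ q₂ : ℕ} {χ₁ : DirichletCharacter ℂ q₁}
    {χ₂ : DirichletCharacter ℂ q₂} (h₁ : χ₁ ^ 2 = 1) (h₂ : χ₂ ^ 2 = 1) :
    (prodChar χ₁ χ₂) ^ 2 = 1 := by
  rw [prodChar, mul_pow, ← map_pow, ← map_pow, h₁, h₂, map_one, map_one, mul_one]

/-- `(s - 1) ζ(s)` -/
noncomputable def Zt (s : ℂ) : ℂ := DirichletCharacter.LFunctionTrivChar₁ 1 s

theorem differentiable_Zt : Differentiable ℂ Zt :=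
  DirichletCharacter.differentiable_LFunctionTrivChar₁ 1

theorem Zt_one : Zt 1 = 1 := by
  rw [Zt, DirichletCharacter.LFunctionTrivChar₁, Function.update_self]
  simp

theorem Zt_of_ne {s : ℂ} (hs : s ≠ 1) : Zt s = (s - 1) * riemannZeta s := by
  rw [Zt, DirichletCharacter.LFunctionTrivChar₁, Function.update_of_ne hs,
    DirichletCharacter.LFunctionTrivChar, DirichletCharacter.LFunction_modOne_eq]

theorem exists_Zt_bound : ∃ C : ℝ, 0 < C ∧ ∀ s ∈ sphere (2 : ℂ) (3 / 2), ‖Zt s‖ ≤ C := by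
  obtain ⟨C, hC⟩ := (isCompact_sphere (2 : ℂ) (3 / 2)).exists_bound_of_continuousOn
    differentiable_Zt.continuous.continuousOn
  exact ⟨max C 1, by positivity, fun s hs => (hC s hs).trans (le_max_left _ _)⟩

theorem exists_Zt_pos : ∃ δ : ℝ, 0 < δ ∧ ∀ x : ℝ, 1 - δ < x → x < 1 → 0 ≤ (Zt x).re := by
  have hc : ContinuousAt (fun x : ℝ => (Zt x).re) 1 :=
    (Complex.continuous_re.comp (differentiable_Zt.continuous.comp
      Complex.continuous_ofReal)).continuousAt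
  have h1 : (0 : ℝ) < (Zt ((1 : ℝ) : ℂ)).re := by
    have : ((1 : ℝ) : ℂ) = 1 := by push_cast; rfl
    rw [this, Zt_one]; simp
  have := hc.eventually (lt_mem_nhds h1)
  obtain ⟨δ, hδ, h⟩ := Metric.eventually_nhds_iff.1 this
  refine ⟨δ, hδ, fun x hx hx1 => (h ?_).le⟩
  rw [Real.dist_eq, abs_lt]
  constructor <;> linarith

theorem zeta_two_re : (1 : ℝ) ≤ (riemannZeta 2).re := by
  rw [riemannZeta_two]
  have : ((Real.pi : ℂ) ^ 2 / 6) = ((Real.pi ^ 2 / 6 : ℝ) : ℂ) := by push_cast; ring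
  rw [this, Complex.ofReal_re]
  have := Real.pi_gt_three
  nlinarith

theorem riemannZeta_two_ofReal : riemannZeta 2 = (((riemannZeta 2).re : ℝ) : ℂ) := by
  rw [riemannZeta_two]
  have : ((Real.pi : ℂ) ^ 2 / 6) = ((Real.pi ^ 2 / 6 : ℝ) : ℂ) := by push_cast; ring
  rw [this, Complex.ofReal_re]

theorem LFunction_two_ofReal {q : ℕ} [NeZero q] {χ : DirichletCharacter ℂ q} (h : χ ^ 2 = 1)
    (hχ : χ ≠ 1) : χ.LFunction 2 = (((χ.LFunction 2).re : ℝ) : ℂ) := by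
  have := LFunction_ofReal h hχ (x := 2) (by norm_num)
  simpa using this

/-- bound on the circle -/
theorem norm_LFunction_sphere_le {q : ℕ} [NeZero q] {χ : DirichletCharacter ℂ q} (hχ : χ ≠ 1)
    {s : ℂ} (hs : s ∈ sphere (2 : ℂ) (3 / 2)) : ‖χ.LFunction s‖ ≤ 7 * q := by
  rw [mem_sphere_iff_norm] at hs
  have h1 : (1 : ℝ) / 2 ≤ s.re := by
    have := (abs_le.1 ((Complex.abs_re_le_norm (s - 2)).trans_eq hs)).1
    rw [Complex.sub_re] at this
    norm_num at this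
    linarith
  have h2 : ‖s‖ ≤ 7 / 2 := by
    calc ‖s‖ = ‖(s - 2) + 2‖ := by ring_nf
      _ ≤ ‖s - 2‖ + ‖(2 : ℂ)‖ := norm_add_le _ _
      _ = 7 / 2 := by rw [hs]; norm_num
  refine (norm_LFunction_le hχ (by linarith)).trans ?_
  have h3 : (q : ℝ) / s.re ≤ 2 * q := by
    rw [div_le_iff₀ (by linarith)]
    have : (0 : ℝ) ≤ q := Nat.cast_nonneg q
    nlinarith
  calc ‖s‖ * (q / s.re) ≤ 7 / 2 * (2 * q) :=
        mul_le_mul h2 h3 (by positivity) (by norm_num)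
    _ = 7 * q := by ring

theorem norm_LFunction_one_le {q : ℕ} [NeZero q] {χ : DirichletCharacter ℂ q} (hχ : χ ≠ 1) :
    ‖χ.LFunction 1‖ ≤ q := by
  have := norm_LFunction_le hχ (s := 1) (by simp)
  simpa using this

end Pool.Agent.Lib.MP_6bc78b_nt.SW.H6
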