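import Pool.Agent.Lib.MP_6bc78b_nt.SW.Siegel

open Finset Filter Complex Metric MeasureTheory
open scoped Topology ComplexOrder Nat

namespace Pool.Agent.Lib.MP_6bc78b_nt.SW.H6

/-- a weak lower bound for the Euler factors -/
theorem prod_factors_ge {ε : ℝ} (hε : 0 < ε) : ∃ c : ℝ, 0 < c ∧ ∀ n : ℕ, n ≠ 0 →
    c * (n : ℝ) ^ (-ε) * ∏ p ∈ n.primeFactors, (1 + 1 / (p : ℝ))
      ≤ ∏ p ∈ n.primeFactors, (1 - 1 / (p : ℝ)) := by
  set P : ℕ := ⌈(3 : ℝ) ^ (1 / ε)⌉₊ with hP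
  refine ⟨(1 / 3) ^ P, by positivity, fun n hn => ?_⟩
  have hp2 : ∀ p ∈ n.primeFactors, (2 : ℝ) ≤ p := fun p hp => by
    exact_mod_cast (Nat.prime_of_mem_primeFactors hp).two_le
  set g : ℕ → ℝ := fun p => if p < P then 1 / 3 else 1 with hg
  have h1 : ∀ p ∈ n.primeFactors, (g p * (p : ℝ) ^ (-ε)) * (1 + 1 / (p : ℝ)) ≤ 1 - 1 / (p : ℝ) := by
    intro p hp
    have hp := hp2 p hp
    have hp0 : (0 : ℝ) < p := by linarith
    have hA : g p * (p : ℝ) ^ (-ε) ≤ 1 / 3 := by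
      by_cases h : p < P
      · have : (p : ℝ) ^ (-ε) ≤ 1 := Real.rpow_le_one_of_one_le_of_nonpos (by linarith) (by linarith)
        simp only [hg, if_pos h]
        linarith
      · simp only [hg, if_neg h, one_mul]
        have h2 : (3 : ℝ) ^ (1 / ε) ≤ p := by
          refine (Nat.le_ceil _).trans ?_
          exact_mod_cast (not_lt.1 h)
        have h3 : (3 : ℝ) ≤ (p : ℝ) ^ ε := by
          calc (3 : ℝ) = ((3 : ℝ) ^ (1 / ε)) ^ ε := by
                rw [← Real.rpow_mul (by norm_num), one_div_mul_cancel hε.ne', Real.rpow_one]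
            _ ≤ (p : ℝ) ^ ε := Real.rpow_le_rpow (by positivity) h2 hε.le
        rw [Real.rpow_neg hp0.le, ← one_div]
        exact one_div_le_one_div_of_le (by norm_num) h3
    have h4 : 1 / (p : ℝ) ≤ 1 / 2 := one_div_le_one_div_of_le (by norm_num) hp
    have h5 : 0 < 1 / (p : ℝ) := by positivity
    have h6 : (g p * (p : ℝ) ^ (-ε)) * (1 + 1 / (p : ℝ)) ≤ 1 / 3 * (1 + 1 / (p : ℝ)) :=
      mul_le_mul_of_nonneg_right hA (by linarith)
    linarith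
  have hgpos : ∀ p, 0 < g p := fun p => by
    simp only [hg]; split_ifs <;> norm_num
  have hgle : ∀ p, g p ≤ 1 := fun p => by
    simp only [hg]; split_ifs <;> norm_num
  have h2 : ∏ p ∈ n.primeFactors, ((g p * (p : ℝ) ^ (-ε)) * (1 + 1 / (p : ℝ)))
      ≤ ∏ p ∈ n.primeFactors, (1 - 1 / (p : ℝ)) := by
    refine Finset.prod_le_prod (fun p hp => ?_) h1
    have := hp2 p hp
    have := hgpos p
    positivity
  refine le_trans ?_ h2
  rw [Finset.prod_mul_distrib, Finset.prod_mul_distrib]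
  have hprod : 0 ≤ ∏ p ∈ n.primeFactors, (1 + 1 / (p : ℝ)) :=
    Finset.prod_nonneg fun p hp => by positivity
  refine mul_le_mul_of_nonneg_right ?_ hprod
  have hg1 : (1 / 3 : ℝ) ^ P ≤ ∏ p ∈ n.primeFactors, g p := by
    have e1 : ∏ p ∈ n.primeFactors, g p
        = ∏ p ∈ n.primeFactors.filter (· < P), (1 / 3 : ℝ) := by
      rw [Finset.prod_filter]
    rw [e1, Finset.prod_const]
    refine pow_le_pow_of_le_one (by norm_num) (by norm_num) ?_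
    calc (n.primeFactors.filter (· < P)).card ≤ (range P).card :=
          Finset.card_le_card fun p hp => Finset.mem_range.2 (Finset.mem_filter.1 hp).2
      _ = P := Finset.card_range P
  have hp1 : (n : ℝ) ^ (-ε) ≤ ∏ p ∈ n.primeFactors, (p : ℝ) ^ (-ε) := by
    rw [Real.finsetProd_rpow _ _ (fun p _ => Nat.cast_nonneg p)]
    have h3 : (∏ p ∈ n.primeFactors, (p : ℝ)) ≤ n := by
      have := Nat.le_of_dvd (Nat.pos_of_ne_zero hn) (Nat.prod_primeFactors_dvd n)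
      calc (∏ p ∈ n.primeFactors, (p : ℝ)) = ((∏ p ∈ n.primeFactors, p : ℕ) : ℝ) := by push_cast; rfl
        _ ≤ n := by exact_mod_cast this
    have h4 : (0 : ℝ) < ∏ p ∈ n.primeFactors, (p : ℝ) :=
      Finset.prod_pos fun p hp => by linarith [hp2 p hp]
    exact Real.rpow_le_rpow_of_nonpos h4 h3 (by linarith)
  exact mul_le_mul hg1 hp1 (by positivity) (Finset.prod_nonneg fun p _ => (hgpos p).le)

/-- comparison of two real characters which induce the same character -/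
theorem compare_values {q₁ q : ℕ} [NeZero q₁] [NeZero q] {χ₁ : DirichletCharacter ℂ q₁}
    {χ : DirichletCharacter ℂ q} (h₁ : χ₁ ≠ 1) (h : χ ≠ 1) (r₁ : χ₁ ^ 2 = 1)
    (h₃ : prodChar χ₁ χ = 1) :
    ‖χ₁.LFunction 1‖ * ∏ p ∈ (q₁ * q).primeFactors, (1 - 1 / (p : ℝ))
      ≤ ‖χ.LFunction 1‖ * ∏ p ∈ (q₁ * q).primeFactors, (1 + 1 / (p : ℝ)) := by
  have e0 : DirichletCharacter.changeLevel (q.dvd_mul_left q₁) χ
      = DirichletCharacter.changeLevel (q₁.dvd_mul_right q) χ₁ := by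
    have e1 : (DirichletCharacter.changeLevel (q₁.dvd_mul_right q) χ₁) *
      (DirichletCharacter.changeLevel (q.dvd_mul_left q₁) χ) = 1 := h₃
    have e2 : (DirichletCharacter.changeLevel (q₁.dvd_mul_right q) χ₁) *
      (DirichletCharacter.changeLevel (q₁.dvd_mul_right q) χ₁) = 1 := by
      rw [← map_mul, ← sq, r₁, map_one]
    exact mul_left_cancel (e1.trans e2.symm)
  have e1 := DirichletCharacter.LFunction_changeLevel (q₁.dvd_mul_right q) χ₁ (s := 1) (Or.inl h₁)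
  have e2 := DirichletCharacter.LFunction_changeLevel (q.dvd_mul_left q₁) χ (s := 1) (Or.inl h)
  rw [e0, e1] at e2
  have e3 := congrArg norm e2
  rw [norm_mul, norm_mul, norm_prod, norm_prod] at e3
  have hlow : ∏ p ∈ (q₁ * q).primeFactors, (1 - 1 / (p : ℝ))
      ≤ ∏ p ∈ (q₁ * q).primeFactors, ‖1 - χ₁ (p : ZMod q₁) * (p : ℂ) ^ (-1 : ℂ)‖ := by
    refine Finset.prod_le_prod (fun p hp => ?_) (fun p hp => ?_)
    · have : (2 : ℝ) ≤ p := by exact_mod_cast (Nat.prime_of_mem_primeFactors hp).two_le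
      have : 1 / (p : ℝ) ≤ 1 / 2 := one_div_le_one_div_of_le (by norm_num) this
      linarith
    · have h1 : ‖χ₁ (p : ZMod q₁) * (p : ℂ) ^ (-1 : ℂ)‖ ≤ 1 / (p : ℝ) := by
        rw [norm_mul, Complex.cpow_neg_one, norm_inv, Complex.norm_natCast, one_div]
        exact mul_le_of_le_one_left (by positivity) (χ₁.norm_le_one _)
      have h2 := norm_sub_norm_le (1 : ℂ) (χ₁ (p : ZMod q₁) * (p : ℂ) ^ (-1 : ℂ))
      rw [norm_one] at h2
      linarith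
  have hup : ∏ p ∈ (q₁ * q).primeFactors, ‖1 - χ (p : ZMod q) * (p : ℂ) ^ (-1 : ℂ)‖
      ≤ ∏ p ∈ (q₁ * q).primeFactors, (1 + 1 / (p : ℝ)) := by
    refine Finset.prod_le_prod (fun p hp => norm_nonneg _) (fun p hp => ?_)
    have h1 : ‖χ (p : ZMod q) * (p : ℂ) ^ (-1 : ℂ)‖ ≤ 1 / (p : ℝ) := by
      rw [norm_mul, Complex.cpow_neg_one, norm_inv, Complex.norm_natCast, one_div]
      exact mul_le_of_le_one_left (by positivity) (χ.norm_le_one _)
    refine (norm_sub_le _ _).trans ?_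
    rw [norm_one]
    linarith
  calc _ ≤ ‖χ₁.LFunction 1‖ * ∏ p ∈ (q₁ * q).primeFactors,
        ‖1 - χ₁ (p : ZMod q₁) * (p : ℂ) ^ (-1 : ℂ)‖ :=
        mul_le_mul_of_nonneg_left hlow (norm_nonneg _)
    _ = ‖χ.LFunction 1‖ * ∏ p ∈ (q₁ * q).primeFactors,
        ‖1 - χ (p : ZMod q) * (p : ℂ) ^ (-1 : ℂ)‖ := e3
    _ ≤ _ := mul_le_mul_of_nonneg_left hup (norm_nonneg _)

theorem norm_eq_re {q : ℕ} [NeZero q] {χ : DirichletCharacter ℂ q} (h : χ ^ 2 = 1)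
    (hχ : χ ≠ 1) : ‖χ.LFunction 1‖ = (χ.LFunction 1).re := by
  have := LFunction_one_ofReal h hχ
  have hpos := LFunction_one_pos h hχ
  rw [this, Complex.norm_real, Real.norm_eq_abs, Complex.ofReal_re, abs_of_pos hpos]

theorem re_LFunction_one_le {q : ℕ} [NeZero q] {χ : DirichletCharacter ℂ q} (hχ : χ ≠ 1)
    {ε : ℝ} (hε : 0 < ε) : (χ.LFunction 1).re ≤ 9 / ε * (4 * q : ℝ) ^ ε := by
  have h1 := norm_LFunction_le_log hχ (s := 1) (by
    have := two_lt_LL (one_lt_of_ne_one hχ) (1 : ℂ).im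
    have h2 : 0 < 1 / LL q (1 : ℂ).im := by positivity
    rw [Complex.one_re]
    linarith)
  have h2 : LL q (1 : ℂ).im = Real.log (4 * q) := by
    rw [LL, Complex.one_im, abs_zero, zero_add, mul_comm]
  rw [h2] at h1
  have h3 := Real.log_le_rpow_div (x := (4 * q : ℝ)) (by positivity) hε
  calc (χ.LFunction 1).re ≤ ‖χ.LFunction 1‖ := Complex.re_le_norm _
    _ ≤ 9 * Real.log (4 * q) := h1
    _ ≤ 9 * ((4 * q : ℝ) ^ ε / ε) := by linarith
    _ = _ := by ring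

theorem siegel_pair {ε : ℝ} (hε : 0 < ε) {q₁ : ℕ} [NeZero q₁] {χ₁ : DirichletCharacter ℂ q₁}
    (h₁ : χ₁ ≠ 1) (r₁ : χ₁ ^ 2 = 1) {x : ℝ} (hx : 7 / 8 ≤ x) (hxε : 16 * (1 - x) ≤ ε)
    (hx1 : x < 1) (hzero : χ₁.LFunction x = 0) :
    ∃ c : ℝ, 0 < c ∧ ∀ (q : ℕ) [NeZero q] (χ : DirichletCharacter ℂ q), χ ≠ 1 → χ ^ 2 = 1 →
      c * (q : ℝ) ^ (-ε) ≤ (χ.LFunction 1).re := by
  obtain ⟨Z₀, hZ₀, hZ⟩ := exists_Zt_bound
  obtain ⟨c₀, hc₀, hkey⟩ := key (b₀ := 1 / 27) (C := 2 * (343 * Z₀ + 1)) (by norm_num)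
    (by positivity)
  obtain ⟨c₁, hc₁, hprod⟩ := prod_factors_ge hε
  have hl₁ := LFunction_one_pos r₁ h₁
  set l₁ := (χ₁.LFunction 1).re with hl₁def
  have hq₁ : (0 : ℝ) < q₁ := by exact_mod_cast Nat.pos_of_ne_zero (NeZero.ne q₁)
  have hq₁1 : (1 : ℝ) ≤ q₁ := by exact_mod_cast Nat.one_le_iff_ne_zero.2 (NeZero.ne q₁)
  set a : ℝ := c₀ * (1 - x) * ((q₁ : ℝ) ^ (-(ε / 2))) /
    (l₁ * (9 / (ε / 2) * (4 * q₁ : ℝ) ^ (ε / 2))) with ha
  have h1x : 0 < 1 - x := by linarith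
  have hapos : 0 < a := by positivity
  set b : ℝ := l₁ * (c₁ * (q₁ : ℝ) ^ (-ε)) with hb
  have hbpos : 0 < b := by positivity
  refine ⟨min a b, lt_min hapos hbpos, ?_⟩
  intro q _ χ hχ r
  have hq1 : (1 : ℝ) ≤ q := by exact_mod_cast Nat.one_le_iff_ne_zero.2 (NeZero.ne q)
  have hq0 : (0 : ℝ) < q := by linarith
  have hl := LFunction_one_pos r hχ
  have hqε : 0 < (q : ℝ) ^ (-ε) := by positivity
  by_cases h₃ : prodChar χ₁ χ = 1
  · -- degenerate case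
    have h4 := compare_values h₁ hχ r₁ h₃
    rw [norm_eq_re r hχ, norm_eq_re r₁ h₁] at h4
    have h5 := hprod (q₁ * q) (mul_ne_zero (NeZero.ne q₁) (NeZero.ne q))
    have h6 : 0 < ∏ p ∈ (q₁ * q).primeFactors, (1 + 1 / (p : ℝ)) :=
      Finset.prod_pos fun p hp => by positivity
    have h7 : l₁ * (c₁ * ((q₁ * q : ℕ) : ℝ) ^ (-ε)) ≤ (χ.LFunction 1).re := by
      refine le_of_mul_le_mul_right ?_ h6
      calc l₁ * (c₁ * ((q₁ * q : ℕ) : ℝ) ^ (-ε)) * ∏ p ∈ (q₁ * q).primeFactors, (1 + 1 / (p : ℝ))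
          = l₁ * (c₁ * ((q₁ * q : ℕ) : ℝ) ^ (-ε) *
            ∏ p ∈ (q₁ * q).primeFactors, (1 + 1 / (p : ℝ))) := by ring
        _ ≤ l₁ * ∏ p ∈ (q₁ * q).primeFactors, (1 - 1 / (p : ℝ)) :=
            mul_le_mul_of_nonneg_left h5 hl₁.le
        _ ≤ _ := h4
    have h8 : ((q₁ * q : ℕ) : ℝ) ^ (-ε) = (q₁ : ℝ) ^ (-ε) * (q : ℝ) ^ (-ε) := by
      rw [Nat.cast_mul, Real.mul_rpow hq₁.le hq0.le]
    rw [h8] at h7
    calc min a b * (q : ℝ) ^ (-ε) ≤ b * (q : ℝ) ^ (-ε) :=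
          mul_le_mul_of_nonneg_right (min_le_right _ _) hqε.le
      _ = l₁ * (c₁ * ((q₁ : ℝ) ^ (-ε) * (q : ℝ) ^ (-ε))) := by rw [hb]; ring
      _ ≤ _ := h7
  · have hr₃ := prodChar_sq r₁ r
    have hl₃ := LFunction_one_pos hr₃ h₃
    set l₂ := (χ.LFunction 1).re with hl₂def
    set l₃ := ((prodChar χ₁ χ).LFunction 1).re with hl₃def
    have hH1 : H2 χ₁ χ 1 = ((l₁ * l₂ * l₃ : ℝ) : ℂ) := by
      rw [H2, Zt_one, one_mul, LFunction_one_ofReal r₁ h₁, LFunction_one_ofReal r hχ,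
        LFunction_one_ofReal hr₃ h₃]
      push_cast; rfl
    have hQ : (1 : ℝ) ≤ (q₁ * q : ℝ) := one_le_mul_of_one_le_of_one_le hq₁1 hq1
    have hn1 : ‖H2 χ₁ χ 1‖ ≤ (q₁ * q : ℝ) ^ 2 := by
      rw [H2, Zt_one, one_mul, norm_mul, norm_mul]
      calc ‖χ₁.LFunction 1‖ * ‖χ.LFunction 1‖ * ‖(prodChar χ₁ χ).LFunction 1‖
          ≤ q₁ * q * ((q₁ * q : ℕ) : ℝ) := by
            refine mul_le_mul (mul_le_mul (norm_LFunction_one_le h₁) (norm_LFunction_one_le hχ)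
              (norm_nonneg _) (by positivity)) (norm_LFunction_one_le h₃) (norm_nonneg _)
              (by positivity)
        _ = _ := by push_cast; ring
    have hcirc : ∀ s ∈ sphere (2 : ℂ) (3 / 2),
        ‖dslope (H2 χ₁ χ) 1 s‖ ≤ 2 * (343 * Z₀ + 1) * (q₁ * q : ℝ) ^ 2 := by
      intro s hs
      have h5 : ‖H2 χ₁ χ s‖ ≤ 343 * Z₀ * (q₁ * q : ℝ) ^ 2 := by
        rw [H2, norm_mul, norm_mul, norm_mul]
        calc ‖Zt s‖ * (‖χ₁.LFunction s‖ * ‖χ.LFunction s‖ * ‖(prodChar χ₁ χ).LFunction s‖)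
            ≤ Z₀ * ((7 * q₁) * (7 * q) * (7 * ((q₁ * q : ℕ) : ℝ))) := by
              refine mul_le_mul (hZ s hs) ?_ (by positivity) hZ₀.le
              exact mul_le_mul (mul_le_mul (norm_LFunction_sphere_le h₁ hs)
                (norm_LFunction_sphere_le hχ hs) (norm_nonneg _) (by positivity))
                (norm_LFunction_sphere_le h₃ hs) (norm_nonneg _) (by positivity)
          _ = _ := by push_cast; ring
      refine (norm_dslope_le hs hn1 h5).trans (le_of_eq ?_)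
      ring
    have hH2 : (1 : ℝ) / 27 ≤ (H2 χ₁ χ 2).re := by
      have hz2 : Zt 2 = riemannZeta 2 := by
        rw [Zt_of_ne (by norm_num)]; norm_num
      rw [H2, hz2, riemannZeta_two_ofReal, LFunction_two_ofReal r₁ h₁, LFunction_two_ofReal r hχ,
        LFunction_two_ofReal hr₃ h₃, ← Complex.ofReal_mul, ← Complex.ofReal_mul,
        ← Complex.ofReal_mul, Complex.ofReal_re]
      have e1 := zeta_two_re
      have e2 := LFunction_two_re χ₁
      have e3 := LFunction_two_re χ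
      have e4 := LFunction_two_re (prodChar χ₁ χ)
      calc (1 : ℝ) / 27 = 1 * (1 / 3 * (1 / 3) * (1 / 3)) := by norm_num
        _ ≤ _ := by
          refine mul_le_mul e1 (mul_le_mul (mul_le_mul e2 e3 (by norm_num) (by linarith)) e4
            (by norm_num) (by nlinarith)) (by norm_num) (by linarith)
    have hHx : (H2 χ₁ χ x).re / (x - 1) ≤ 0 := by
      rw [H2, hzero, zero_mul, zero_mul, mul_zero, Complex.zero_re, zero_div]
    have hmain := hkey (H2 χ₁ χ) (l₁ * l₂ * l₃) (q₁ * q) x (differentiable_H2 h₁ hχ h₃) hH1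
      (by positivity) hQ hcirc (alt_H2 h₁ hχ h₃ r₁ r) hH2 hx hx1 hHx
    have hl₃le := re_LFunction_one_le h₃ (ε := ε / 2) (by linarith)
    have hexp : (q₁ : ℝ) ^ (-(ε / 2)) * (q : ℝ) ^ (-(ε / 2))
        ≤ (q₁ * q : ℝ) ^ (-(8 * (1 - x))) := by
      rw [← Real.mul_rpow hq₁.le hq0.le]
      exact Real.rpow_le_rpow_of_exponent_le hQ (by linarith)
    have hl₃le' : l₃ ≤ 9 / (ε / 2) * (4 * q₁ : ℝ) ^ (ε / 2) * (q : ℝ) ^ (ε / 2) := by
      refine hl₃le.trans (le_of_eq ?_)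
      push_cast
      rw [show (4 : ℝ) * (q₁ * q) = (4 * q₁) * q by ring, Real.mul_rpow (by positivity) hq0.le]
      ring
    set w : ℝ := 9 / (ε / 2) * (4 * q₁ : ℝ) ^ (ε / 2) with hw
    have hwpos : 0 < w := by positivity
    have h9 : c₀ * (1 - x) * ((q₁ : ℝ) ^ (-(ε / 2)) * (q : ℝ) ^ (-(ε / 2)))
        ≤ l₁ * l₂ * (w * (q : ℝ) ^ (ε / 2)) := by
      calc c₀ * (1 - x) * ((q₁ : ℝ) ^ (-(ε / 2)) * (q : ℝ) ^ (-(ε / 2)))
          ≤ c₀ * (1 - x) * (q₁ * q : ℝ) ^ (-(8 * (1 - x))) :=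
            mul_le_mul_of_nonneg_left hexp (by positivity)
        _ ≤ l₁ * l₂ * l₃ := hmain
        _ ≤ _ := mul_le_mul_of_nonneg_left hl₃le' (by positivity)
    have h10 : a * (q : ℝ) ^ (-ε) ≤ l₂ := by
      have hsplit : (q : ℝ) ^ (-ε) = (q : ℝ) ^ (-(ε / 2)) / (q : ℝ) ^ (ε / 2) := by
        rw [← Real.rpow_sub hq0]; congr 1; ring
      have hqq : 0 < (q : ℝ) ^ (ε / 2) := by positivity
      rw [hsplit, ha, div_mul_div_comm, div_le_iff₀ (by positivity)]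
      calc c₀ * (1 - x) * (q₁ : ℝ) ^ (-(ε / 2)) * (q : ℝ) ^ (-(ε / 2))
          = c₀ * (1 - x) * ((q₁ : ℝ) ^ (-(ε / 2)) * (q : ℝ) ^ (-(ε / 2))) := by ring
        _ ≤ l₁ * l₂ * (w * (q : ℝ) ^ (ε / 2)) := h9
        _ = _ := by ring
    exact (mul_le_mul_of_nonneg_right (min_le_left _ _) hqε.le).trans h10

theorem siegel_nozero {η : ℝ} (hη : 0 < η) (hη8 : η ≤ 1 / 8)
    (hZ : ∀ x : ℝ, 1 - η < x → x < 1 → 0 ≤ (Zt x).re)
    (hno : ∀ (q : ℕ) [NeZero q] (χ : DirichletCharacter ℂ q), χ ≠ 1 → χ ^ 2 = 1 →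
      ∀ x : ℝ, 1 - η < x → x < 1 → χ.LFunction x ≠ 0) :
    ∃ c : ℝ, 0 < c ∧ ∀ (q : ℕ) [NeZero q] (χ : DirichletCharacter ℂ q), χ ≠ 1 → χ ^ 2 = 1 →
      c * (q : ℝ) ^ (-(4 * η)) ≤ (χ.LFunction 1).re := by
  obtain ⟨Z₀, hZ₀, hZb⟩ := exists_Zt_bound
  obtain ⟨c₀, hc₀, hkey⟩ := key (b₀ := 1 / 3) (C := 2 * (7 * Z₀ + 1)) (by norm_num)
    (by positivity)
  refine ⟨c₀ * (η / 2), by positivity, ?_⟩
  intro q _ χ hχ r
  have hq1 : (1 : ℝ) ≤ q := by exact_mod_cast Nat.one_le_iff_ne_zero.2 (NeZero.ne q)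
  have hq0 : (0 : ℝ) < q := by linarith
  have hl := LFunction_one_pos r hχ
  set x : ℝ := 1 - η / 2 with hx
  have hH1 : H1 χ 1 = (((χ.LFunction 1).re : ℝ) : ℂ) := by
    rw [H1, Zt_one, one_mul]
    exact LFunction_one_ofReal r hχ
  have hn1 : ‖H1 χ 1‖ ≤ (q : ℝ) ^ 2 := by
    rw [H1, Zt_one, one_mul]
    refine (norm_LFunction_one_le hχ).trans ?_
    nlinarith
  have hcirc : ∀ s ∈ sphere (2 : ℂ) (3 / 2),
      ‖dslope (H1 χ) 1 s‖ ≤ 2 * (7 * Z₀ + 1) * (q : ℝ) ^ 2 := by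
    intro s hs
    have h5 : ‖H1 χ s‖ ≤ 7 * Z₀ * (q : ℝ) ^ 2 := by
      rw [H1, norm_mul]
      have hqq : (q : ℝ) ≤ (q : ℝ) ^ 2 := by nlinarith
      calc ‖Zt s‖ * ‖χ.LFunction s‖ ≤ Z₀ * (7 * q) :=
            mul_le_mul (hZb s hs) (norm_LFunction_sphere_le hχ hs) (norm_nonneg _) hZ₀.le
        _ = 7 * Z₀ * q := by ring
        _ ≤ 7 * Z₀ * (q : ℝ) ^ 2 := mul_le_mul_of_nonneg_left hqq (by positivity)
    refine (norm_dslope_le hs hn1 h5).trans (le_of_eq ?_)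
    ring
  have hH2 : (1 : ℝ) / 3 ≤ (H1 χ 2).re := by
    have hz2 : Zt 2 = riemannZeta 2 := by
      rw [Zt_of_ne (by norm_num)]; norm_num
    rw [H1, hz2, riemannZeta_two_ofReal, LFunction_two_ofReal r hχ, ← Complex.ofReal_mul,
      Complex.ofReal_re]
    have e1 := zeta_two_re
    have e2 := LFunction_two_re χ
    nlinarith
  have hHx : (H1 χ x).re / (x - 1) ≤ 0 := by
    have hxpos : 0 < x := by rw [hx]; linarith
    have h1 : 0 < (χ.LFunction x).re := by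
      refine LFunction_re_pos r hχ hxpos (by rw [hx]; linarith) ?_
      intro y hy hy1
      exact hno q χ hχ r y (by rw [hx] at hy; linarith) hy1
    have h2 : 0 ≤ (Zt x).re := hZ x (by rw [hx]; linarith) (by rw [hx]; linarith)
    have h3 : (H1 χ x).re = (Zt x).re * (χ.LFunction x).re := by
      rw [H1, LFunction_ofReal r hχ hxpos, Complex.re_mul_ofReal, Complex.ofReal_re]
    rw [h3]
    exact div_nonpos_of_nonneg_of_nonpos (mul_nonneg h2 h1.le) (by rw [hx]; linarith)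
  have hmain := hkey (H1 χ) (χ.LFunction 1).re q x (differentiable_H1 hχ) hH1 hl.le hq1 hcirc
    (alt_H1 hχ r) hH2 (by rw [hx]; linarith) (by rw [hx]; linarith) hHx
  have e1 : 1 - x = η / 2 := by rw [hx]; ring
  rw [e1] at hmain
  have e2 : 8 * (η / 2) = 4 * η := by ring
  rw [e2] at hmain
  exact hmain

/-- Siegel's theorem -/
theorem siegel {ε : ℝ} (hε : 0 < ε) :
    ∃ c : ℝ, 0 < c ∧ ∀ (q : ℕ) [NeZero q] (χ : DirichletCharacter ℂ q), χ ≠ 1 → χ ^ 2 = 1 →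
      c * (q : ℝ) ^ (-ε) ≤ (χ.LFunction 1).re := by
  obtain ⟨δ, hδ, hZ⟩ := exists_Zt_pos
  set η : ℝ := min (min (ε / 16) (1 / 8)) δ with hη
  have hη0 : 0 < η := lt_min (lt_min (by positivity) (by norm_num)) hδ
  have hη1 : η ≤ ε / 16 := (min_le_left _ _).trans (min_le_left _ _)
  have hη2 : η ≤ 1 / 8 := (min_le_left _ _).trans (min_le_right _ _)
  have hη3 : η ≤ δ := min_le_right _ _
  by_cases hex : ∃ (q₁ : ℕ) (_ : NeZero q₁) (χ₁ : DirichletCharacter ℂ q₁) (x : ℝ),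
      χ₁ ≠ 1 ∧ χ₁ ^ 2 = 1 ∧ 1 - η < x ∧ x < 1 ∧ χ₁.LFunction x = 0
  · obtain ⟨q₁, _, χ₁, x, h₁, r₁, hx, hx1, hzero⟩ := hex
    exact siegel_pair hε h₁ r₁ (by linarith) (by linarith) hx1 hzero
  · push Not at hex
    obtain ⟨c, hc, h⟩ := siegel_nozero hη0 hη2 (fun x hx hx1 => hZ x (by linarith) hx1)
      (fun q _ χ hχ r x hx hx1 => hex q inferInstance χ x hχ r hx hx1)
    refine ⟨c, hc, fun q _ χ hχ r => (mul_le_mul_of_nonneg_left ?_ hc.le).trans (h q χ hχ r)⟩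
    have hq1 : (1 : ℝ) ≤ q := by exact_mod_cast Nat.one_le_iff_ne_zero.2 (NeZero.ne q)
    exact Real.rpow_le_rpow_of_exponent_le hq1 (by linarith)

end Pool.Agent.Lib.MP_6bc78b_nt.SW.H6
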