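import Pool.Agent.Lib.MP_6bc78b_nt.SW.Iface
import Pool.Agent.Lib.MP_6bc78b_nt.SW.Siegel2

namespace Pool.Agent.Lib.MP_6bc78b_nt.SW

/-- Siegel's theorem -/
theorem sieg : SiegStatement := by
  intro ε hε
  obtain ⟨c, hc, h⟩ := H6.siegel hε
  exact ⟨c, hc, fun q _ χ hχ r => (h q χ hχ r).trans (Complex.re_le_norm _)⟩

end Pool.Agent.Lib.MP_6bc78b_nt.SW
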