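import Pool.Agent.Lib.MP_6bc78b_nt.SW.RealChar

open Finset Filter Complex Metric MeasureTheory
open scoped Topology ComplexOrder Nat ArithmeticFunction.vonMangoldt

namespace Pool.Agent.Lib.MP_6bc78b_nt.SW.H6

theorem key {b₀ C : ℝ} (hb : 0 < b₀) (hC : 0 < C) : ∃ c : ℝ, 0 < c ∧
    ∀ (H : ℂ → ℂ) (l Q x : ℝ), Differentiable ℂ H → H 1 = (l : ℂ) → 0 ≤ l → 1 ≤ Q →
    (∀ s ∈ sphere (2 : ℂ) (3 / 2), ‖dslope H 1 s‖ ≤ C * Q ^ 2) →
    (∀ n : ℕ, 0 ≤ (-1) ^ n * iteratedDeriv n (fun s => H s * (s - 1)⁻¹) 2) →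
    b₀ ≤ (H 2).re → 7 / 8 ≤ x → x < 1 → (H x).re / (x - 1) ≤ 0 →
    c * (1 - x) * Q ^ (-(8 * (1 - x))) ≤ l := by
  obtain ⟨m, hm⟩ := exists_pow_lt_of_lt_one (y := (3 / 4 : ℝ)) (x := b₀ / 2 / (4 * C))
    (by positivity) (by norm_num)
  have hm' : 4 * C * (3 / 4) ^ m ≤ b₀ / 2 := by
    rw [lt_div_iff₀ (by positivity)] at hm
    linarith
  refine ⟨b₀ / 2 * Real.exp (-(m + 2 : ℝ)), by positivity, ?_⟩
  intro H l Q x hH hl hl0 hQ hA halt h0 hx hx1 hneg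
  have hQ0 : 0 < Q := by linarith
  have hlogQ : 0 ≤ Real.log Q := Real.log_nonneg hQ
  set k : ℕ := ⌈8 * Real.log Q⌉₊ with hk
  have hk1 : 8 * Real.log Q ≤ k := Nat.le_ceil _
  have hk2 : (k : ℝ) < 8 * Real.log Q + 1 := Nat.ceil_lt_add_one (by positivity)
  have h1x : 0 < 1 - x := by linarith
  have hest := estermann hH hl hl0 hA halt h0 hx hx1 (M := m + 1 + k) (by omega)
  have hpowk : (3 / 4 : ℝ) ^ k ≤ (Q ^ 2)⁻¹ := by
    have h1 : (3 / 4 : ℝ) ≤ Real.exp (-(1 / 4)) := by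
      have := Real.add_one_le_exp (-(1 / 4) : ℝ)
      linarith
    calc (3 / 4 : ℝ) ^ k ≤ Real.exp (-(1 / 4)) ^ k := pow_le_pow_left₀ (by norm_num) h1 _
      _ = Real.exp (-(k / 4)) := by rw [← Real.exp_nat_mul]; congr 1; ring
      _ ≤ Real.exp (-(2 * Real.log Q)) := Real.exp_le_exp.2 (by linarith)
      _ = (Q ^ 2)⁻¹ := by
          rw [Real.exp_neg]
          congr 1
          rw [two_mul, Real.exp_add, Real.exp_log hQ0]; ring
  have hsmall : 4 * (C * Q ^ 2) * (3 / 4) ^ (m + 1 + k) ≤ b₀ / 2 := by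
    have h34 : (3 / 4 : ℝ) ^ (m + 1) ≤ (3 / 4) ^ m :=
      pow_le_pow_of_le_one (by norm_num) (by norm_num) (Nat.le_succ m)
    calc 4 * (C * Q ^ 2) * (3 / 4) ^ (m + 1 + k)
        = (4 * C * (3 / 4) ^ (m + 1)) * (Q ^ 2 * (3 / 4) ^ k) := by rw [pow_add]; ring
      _ ≤ (4 * C * (3 / 4) ^ m) * (Q ^ 2 * (Q ^ 2)⁻¹) := by
          refine mul_le_mul (mul_le_mul_of_nonneg_left h34 (by positivity))
            (mul_le_mul_of_nonneg_left hpowk (by positivity)) (by positivity) (by positivity)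
      _ = 4 * C * (3 / 4) ^ m := by rw [mul_inv_cancel₀ (by positivity), mul_one]
      _ ≤ b₀ / 2 := hm'
  have hexp : Real.exp (((m + 1 + k : ℕ) : ℝ) * (1 - x))
      ≤ Real.exp (m + 2 : ℝ) * Q ^ (8 * (1 - x)) := by
    have h1 : Q ^ (8 * (1 - x)) = Real.exp (8 * Real.log Q * (1 - x)) := by
      rw [Real.rpow_def_of_pos hQ0]; congr 1; ring
    rw [h1, ← Real.exp_add]
    refine Real.exp_le_exp.2 ?_
    push_cast
    have hm0 : (0 : ℝ) ≤ m := Nat.cast_nonneg m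
    nlinarith
  have hfin : b₀ / 2 ≤ l * (Real.exp (m + 2 : ℝ) * Q ^ (8 * (1 - x))) / (1 - x) := by
    have h1 : l * Real.exp (((m + 1 + k : ℕ) : ℝ) * (1 - x)) / (1 - x)
        ≤ l * (Real.exp (m + 2 : ℝ) * Q ^ (8 * (1 - x))) / (1 - x) := by gcongr
    linarith
  rw [le_div_iff₀ h1x] at hfin
  have hE : Real.exp (-(m + 2 : ℝ)) = (Real.exp (m + 2 : ℝ))⁻¹ := Real.exp_neg _
  have hP : Q ^ (-(8 * (1 - x))) = (Q ^ (8 * (1 - x)))⁻¹ := Real.rpow_neg hQ0.le _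
  rw [hE, hP]
  have hE0 := Real.exp_pos (m + 2 : ℝ)
  have hP0 : 0 < Q ^ (8 * (1 - x)) := Real.rpow_pos_of_pos hQ0 _
  have : b₀ / 2 * (Real.exp (m + 2 : ℝ))⁻¹ * (1 - x) * (Q ^ (8 * (1 - x)))⁻¹
      = (b₀ / 2 * (1 - x)) / (Real.exp (m + 2 : ℝ) * Q ^ (8 * (1 - x))) := by
    field_simp
  rw [this, div_le_iff₀ (by positivity)]
  exact hfin

/-! ### The two auxiliary functions -/

noncomputable def H1 {q : ℕ} [NeZero q] (χ : DirichletCharacter ℂ q) (s : ℂ) : ℂ :=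
  Zt s * χ.LFunction s

noncomputable def H2 {q₁ q₂ : ℕ} [NeZero q₁] [NeZero q₂] (χ₁ : DirichletCharacter ℂ q₁)
    (χ₂ : DirichletCharacter ℂ q₂) (s : ℂ) : ℂ :=
  Zt s * (χ₁.LFunction s * χ₂.LFunction s * (prodChar χ₁ χ₂).LFunction s)

theorem differentiable_H1 {q : ℕ} [NeZero q] {χ : DirichletCharacter ℂ q} (hχ : χ ≠ 1) :
    Differentiable ℂ (H1 χ) :=
  differentiable_Zt.mul (DirichletCharacter.differentiable_LFunction hχ)

theorem differentiable_H2 {q₁ q₂ : ℕ} [NeZero q₁] [NeZero q₂] {χ₁ : DirichletCharacter ℂ q₁}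
    {χ₂ : DirichletCharacter ℂ q₂} (h₁ : χ₁ ≠ 1) (h₂ : χ₂ ≠ 1) (h₃ : prodChar χ₁ χ₂ ≠ 1) :
    Differentiable ℂ (H2 χ₁ χ₂) :=
  differentiable_Zt.mul (((DirichletCharacter.differentiable_LFunction h₁).mul
    (DirichletCharacter.differentiable_LFunction h₂)).mul
    (DirichletCharacter.differentiable_LFunction h₃))

theorem alt_H2 {q₁ q₂ : ℕ} [NeZero q₁] [NeZero q₂] {χ₁ : DirichletCharacter ℂ q₁}
    {χ₂ : DirichletCharacter ℂ q₂} (h₁ : χ₁ ≠ 1) (h₂ : χ₂ ≠ 1) (h₃ : prodChar χ₁ χ₂ ≠ 1)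
    (r₁ : χ₁ ^ 2 = 1) (r₂ : χ₂ ^ 2 = 1) (n : ℕ) :
    0 ≤ (-1) ^ n * iteratedDeriv n (fun s => H2 χ₁ χ₂ s * (s - 1)⁻¹) 2 := by
  have h2 : (1 : ℝ) < (2 : ℂ).re := by norm_num
  have he : (fun s => H2 χ₁ χ₂ s * (s - 1)⁻¹) =ᶠ[𝓝 2] FF χ₁ χ₂ := by
    filter_upwards [isOpen_ne.mem_nhds (by norm_num : (2 : ℂ) ≠ 1)] with s hs
    rw [H2, FF, Zt_of_ne hs]
    have : s - 1 ≠ 0 := sub_ne_zero.2 hs
    field_simp
  rw [he.iteratedDeriv_eq n]
  refine alternating_of_deriv_eq (D := LSeries (dcoef χ₁ χ₂))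
    (analyticAt_FF h₁ h₂ h₃ (by norm_num)) ?_ ?_ ?_ ?_ n
  · refine LSeries_analyticOnNhd _ _ ?_
    change LSeries.abscissaOfAbsConv (dcoef χ₁ χ₂) < (2 : ℂ).re
    exact (abscissa_dcoef χ₁ χ₂).trans_lt (by exact_mod_cast h2)
  · filter_upwards [(isOpen_lt continuous_const continuous_re).mem_nhds h2] with z hz
    exact deriv_FF h₁ h₂ h₃ hz
  · rw [FF, riemannZeta_two_ofReal, LFunction_two_ofReal r₁ h₁, LFunction_two_ofReal r₂ h₂,
      LFunction_two_ofReal (prodChar_sq r₁ r₂) h₃, ← Complex.ofReal_mul, ← Complex.ofReal_mul,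
      ← Complex.ofReal_mul]
    refine Complex.zero_le_real.2 ?_
    have e1 := zeta_two_re
    have e2 := LFunction_two_re χ₁
    have e3 := LFunction_two_re χ₂
    have e4 := LFunction_two_re (prodChar χ₁ χ₂)
    have p2 : 0 < (χ₁.LFunction 2).re := by linarith
    have p3 : 0 < (χ₂.LFunction 2).re := by linarith
    have p4 : 0 < ((prodChar χ₁ χ₂).LFunction 2).re := by linarith
    have p1 : 0 < (riemannZeta 2).re := by linarith
    positivity
  · intro m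
    have := LSeries.iteratedDeriv_alternating (a := dcoef χ₁ χ₂) (dcoef_nonneg r₁ r₂)
      (x := 2) (by
        refine (abscissa_dcoef χ₁ χ₂).trans_lt ?_
        exact_mod_cast (one_lt_two : (1 : ℝ) < 2)) m
    simpa using this

/-- coefficients for a single character -/
noncomputable def ecoef {q : ℕ} (χ : DirichletCharacter ℂ q) (n : ℕ) : ℂ :=
  (1 + χ (n : ZMod q)) * ((Λ n : ℝ) : ℂ)

theorem ecoef_eq {q : ℕ} (χ : DirichletCharacter ℂ q) :
    ecoef χ = (vmf + (chf χ * vmf)) := by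
  funext n
  simp only [ecoef, Pi.add_apply, Pi.mul_apply]
  ring

theorem LSeriesSummable_ecoef {q : ℕ} (χ : DirichletCharacter ℂ q) {s : ℂ} (hs : 1 < s.re) :
    LSeriesSummable (ecoef χ) s := by
  rw [ecoef_eq]
  exact (ArithmeticFunction.LSeriesSummable_vonMangoldt hs).add
    (χ.LSeriesSummable_twist_vonMangoldt hs)

theorem LSeries_ecoef {q : ℕ} (χ : DirichletCharacter ℂ q) {s : ℂ} (hs : 1 < s.re) :
    LSeries (ecoef χ) s = LSeries vmf s + LSeries (chf χ * vmf) s := by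
  rw [ecoef_eq, LSeries_add (ArithmeticFunction.LSeriesSummable_vonMangoldt hs)
    (χ.LSeriesSummable_twist_vonMangoldt hs)]

theorem ecoef_nonneg {q : ℕ} {χ : DirichletCharacter ℂ q} (h : χ ^ 2 = 1) : 0 ≤ ecoef χ := by
  intro n
  refine mul_nonneg (one_add_nonneg h _) ?_
  exact Complex.zero_le_real.2 ArithmeticFunction.vonMangoldt_nonneg

theorem abscissa_ecoef {q : ℕ} (χ : DirichletCharacter ℂ q) :
    LSeries.abscissaOfAbsConv (ecoef χ) ≤ 1 := by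
  refine LSeries.abscissaOfAbsConv_le_of_forall_lt_LSeriesSummable (x := 1) fun y hy => ?_
  exact LSeriesSummable_ecoef χ (by simpa using hy)

theorem alt_H1 {q : ℕ} [NeZero q] {χ : DirichletCharacter ℂ q} (hχ : χ ≠ 1)
    (r : χ ^ 2 = 1) (n : ℕ) :
    0 ≤ (-1) ^ n * iteratedDeriv n (fun s => H1 χ s * (s - 1)⁻¹) 2 := by
  have h2 : (1 : ℝ) < (2 : ℂ).re := by norm_num
  have he : (fun s => H1 χ s * (s - 1)⁻¹) =ᶠ[𝓝 2] fun s => riemannZeta s * χ.LFunction s := by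
    filter_upwards [isOpen_ne.mem_nhds (by norm_num : (2 : ℂ) ≠ 1)] with s hs
    rw [H1, Zt_of_ne hs]
    have : s - 1 ≠ 0 := sub_ne_zero.2 hs
    field_simp
  rw [he.iteratedDeriv_eq n]
  have hz : AnalyticAt ℂ riemannZeta 2 := by
    have : DifferentiableOn ℂ riemannZeta {1}ᶜ :=
      fun z hz => (differentiableAt_riemannZeta hz).differentiableWithinAt
    exact this.analyticAt (isOpen_compl_singleton.mem_nhds (by norm_num))
  refine alternating_of_deriv_eq (D := LSeries (ecoef χ))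
    (hz.mul ((DirichletCharacter.differentiable_LFunction hχ).analyticAt 2)) ?_ ?_ ?_ ?_ n
  · refine LSeries_analyticOnNhd _ _ ?_
    change LSeries.abscissaOfAbsConv (ecoef χ) < (2 : ℂ).re
    exact (abscissa_ecoef χ).trans_lt (by exact_mod_cast h2)
  · filter_upwards [(isOpen_lt continuous_const continuous_re).mem_nhds h2] with z hz
    have d0 := (differentiableAt_zeta_of_one_lt hz).hasDerivAt
    have d1 := ((DirichletCharacter.differentiable_LFunction hχ) z).hasDerivAt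
    have := (d0.mul d1).deriv
    rw [this, deriv_riemannZeta_eq hz, deriv_LFunction_eq _ hz, LSeries_ecoef χ hz]
    simp only [Pi.mul_apply]
    ring
  · rw [Pi.mul_apply, riemannZeta_two_ofReal, LFunction_two_ofReal r hχ, ← Complex.ofReal_mul]
    refine Complex.zero_le_real.2 ?_
    have e1 := zeta_two_re
    have e2 := LFunction_two_re χ
    have p2 : 0 < (χ.LFunction 2).re := by linarith
    have p1 : 0 < (riemannZeta 2).re := by linarith
    positivity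
  · intro m
    have := LSeries.iteratedDeriv_alternating (a := ecoef χ) (ecoef_nonneg r)
      (x := 2) (by
        refine (abscissa_ecoef χ).trans_lt ?_
        exact_mod_cast (one_lt_two : (1 : ℝ) < 2)) m
    simpa using this

theorem norm_dslope_le {H : ℂ → ℂ} {B l : ℝ} {s : ℂ} (hs : s ∈ sphere (2 : ℂ) (3 / 2))
    (h1 : ‖H 1‖ ≤ l) (hB : ‖H s‖ ≤ B) : ‖dslope H 1 s‖ ≤ 2 * (B + l) := by
  rw [mem_sphere_iff_norm] at hs
  have hs1 : (1 : ℝ) / 2 ≤ ‖s - 1‖ := by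
    have : ‖s - 2‖ ≤ ‖s - 1‖ + ‖(1 : ℂ)‖ := by
      calc ‖s - 2‖ = ‖(s - 1) - 1‖ := by ring_nf
        _ ≤ _ := norm_sub_le _ _
    rw [hs, norm_one] at this
    linarith
  have hne : s ≠ 1 := by
    rintro rfl; norm_num at hs1
  rw [dslope_of_ne _ hne, slope_def_field, norm_div, div_le_iff₀ (by linarith)]
  have h2 : ‖H s - H 1‖ ≤ B + l := (norm_sub_le _ _).trans (add_le_add hB h1)
  have h3 : 0 ≤ B + l := (norm_nonneg _).trans h2
  nlinarith

end Pool.Agent.Lib.MP_6bc78b_nt.SW.H6
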